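import Mathlib

/-! Concentration of the Erlang density. -/

namespace Pool.Agent.Lib.MP_c2298c_an

open MeasureTheory Filter Topology Set

/-- Poisson weights -/
noncomputable def pw (r : ℝ) (m : ℕ) (t : ℝ) : ℝ := Real.exp (-(r * t)) * ((r * t) ^ m / m.factorial)

theorem pw_cont (r : ℝ) (m : ℕ) : Continuous (pw r m) := by
  unfold pw; fun_prop

theorem pw_nonneg {r : ℝ} (hr : 0 ≤ r) (m : ℕ) {t : ℝ} (ht : 0 ≤ t) : 0 ≤ pw r m t := by
  unfold pw; positivity

theorem pw_le_one {r : ℝ} (hr : 0 ≤ r) (m : ℕ) {t : ℝ} (ht : 0 ≤ t) : pw r m t ≤ 1 := by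
  unfold pw
  have h := Real.pow_div_factorial_le_exp (r * t) (mul_nonneg hr ht) m
  calc Real.exp (-(r * t)) * ((r * t) ^ m / m.factorial)
      ≤ Real.exp (-(r * t)) * Real.exp (r * t) :=
        mul_le_mul_of_nonneg_left h (Real.exp_pos _).le
    _ = 1 := by rw [← Real.exp_add]; simp

theorem pw_zero_zero (r : ℝ) : pw r 0 0 = 1 := by simp [pw]

theorem pw_succ_zero (r : ℝ) (m : ℕ) : pw r (m + 1) 0 = 0 := by simp [pw]

theorem hasDerivAt_exp_neg_mul (r t : ℝ) :
    HasDerivAt (fun t => Real.exp (-(r * t))) (-r * Real.exp (-(r * t))) t := by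
  have h : HasDerivAt (fun t => -(r * t)) (-r) t := by
    exact ((hasDerivAt_id' t).const_mul r).fun_neg.congr_deriv (by ring)
  exact h.exp.congr_deriv (by ring)

theorem pw_deriv_zero (r t : ℝ) : HasDerivAt (pw r 0) (-r * pw r 0 t) t := by
  have : pw r 0 = fun t => Real.exp (-(r * t)) := by ext t; simp [pw]
  rw [this]
  exact hasDerivAt_exp_neg_mul r t

theorem pw_deriv_succ (r : ℝ) (m : ℕ) (t : ℝ) :
    HasDerivAt (pw r (m + 1)) (-r * pw r (m + 1) t + r * pw r m t) t := by
  have h1 := hasDerivAt_exp_neg_mul r t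
  have h2 : HasDerivAt (fun t => r * t) r t := by simpa using (hasDerivAt_id t).const_mul r
  have h3 := (h2.fun_pow (m + 1)).div_const ((m + 1).factorial : ℝ)
  have h4 := h1.fun_mul h3
  refine HasDerivAt.congr_deriv (f := pw r (m + 1)) h4 ?_
  simp only [pw, Nat.factorial_succ, Nat.add_sub_cancel]
  have : (m.factorial : ℝ) ≠ 0 := by positivity
  push_cast
  field_simp

theorem pw_sum_deriv (r : ℝ) (N : ℕ) (t : ℝ) :
    HasDerivAt (fun t => ∑ j ∈ Finset.range (N + 1), pw r j t) (-(r * pw r N t)) t := by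
  induction N with
  | zero => simpa using pw_deriv_zero r t
  | succ N ih =>
    simp only [Finset.sum_range_succ _ (N + 1)]
    exact (ih.fun_add (pw_deriv_succ r N t)).congr_deriv (by ring)

theorem pw_integral (r : ℝ) (N : ℕ) (a b : ℝ) :
    ∫ s in a..b, r * pw r N s =
      ∑ j ∈ Finset.range (N + 1), pw r j a - ∑ j ∈ Finset.range (N + 1), pw r j b := by
  have h := intervalIntegral.integral_eq_sub_of_hasDerivAt (a := a) (b := b)
    (fun s _ => pw_sum_deriv r N s)
    (((pw_cont r N).const_mul r).neg.intervalIntegrable _ _)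
  rw [intervalIntegral.integral_neg] at h
  linarith

theorem pw_sum_zero (r : ℝ) (N : ℕ) : ∑ j ∈ Finset.range (N + 1), pw r j 0 = 1 := by
  rw [Finset.sum_range_succ']
  simp [pw_succ_zero, pw_zero_zero]

theorem mul_exp_lt_one {x : ℝ} (hx : x ≠ 1) : x * Real.exp (1 - x) < 1 := by
  have h := Real.add_one_lt_exp (x := x - 1) (sub_ne_zero.2 hx)
  have h2 : Real.exp (x - 1) * Real.exp (1 - x) = 1 := by rw [← Real.exp_add]; simp
  have h3 := Real.exp_pos (1 - x)
  nlinarith

theorem concentration {a b ε : ℝ} (ha : 0 < a) (hab : a < b) (hε : 0 < ε) :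
    ∃ (N : ℕ) (r : ℝ), 0 < r ∧ ∫ s in (0 : ℝ)..a, r * pw r N s ≤ ε ∧
      1 - 2 * ε ≤ ∫ s in a..b, r * pw r N s := by
  set m : ℝ := (a + b) / 2 with hm
  have hm0 : 0 < m := by rw [hm]; linarith
  set α : ℝ := a / m with hα
  set β : ℝ := b / m with hβ
  have hα0 : 0 < α := div_pos ha hm0
  have hα1 : α < 1 := by rw [hα, div_lt_one hm0, hm]; linarith
  have hβ1 : 1 < β := by rw [hβ, one_lt_div hm0, hm]; linarith
  have hγ : α * Real.exp (1 - α) < 1 := mul_exp_lt_one hα1.ne
  have hγ' : β * Real.exp (1 - β) < 1 := mul_exp_lt_one hβ1.ne'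
  have t1 : Tendsto (fun N : ℕ => (N : ℝ) * (α * Real.exp (1 - α)) ^ N) atTop (𝓝 0) :=
    tendsto_self_mul_const_pow_of_lt_one (by positivity) hγ
  have t2 : Tendsto (fun N : ℕ => (β * Real.exp (1 - β)) ^ N) atTop (𝓝 0) :=
    tendsto_pow_atTop_nhds_zero_of_lt_one (by positivity) hγ'
  obtain ⟨N, ⟨h1, h2⟩, h3⟩ := (((t1.eventually (gt_mem_nhds hε)).and
    (t2.eventually (gt_mem_nhds hε))).and (eventually_gt_atTop 0)).exists
  have hN : (0 : ℝ) < N := by exact_mod_cast h3
  set r : ℝ := N / m with hr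
  have hr0 : 0 < r := div_pos hN hm0
  have hra : r * a = N * α := by rw [hr, hα]; ring
  have hrb : r * b = N * β := by rw [hr, hβ]; ring
  clear_value r α β m
  have e1 : ∫ s in (0 : ℝ)..a, r * pw r N s ≤ ε := by
    have hb : ∀ s ∈ Icc 0 a, r * pw r N s ≤ r * (α * Real.exp (1 - α)) ^ N := by
      intro s hs
      refine mul_le_mul_of_nonneg_left ?_ hr0.le
      have hrs : 0 ≤ r * s := mul_nonneg hr0.le hs.1
      have hrs' : r * s ≤ N * α := by rw [← hra]; exact mul_le_mul_of_nonneg_left hs.2 hr0.le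
      have h := Real.pow_div_factorial_le_exp (r * s / α) (div_nonneg hrs hα0.le) N
      have e : (r * s) ^ N / N.factorial = α ^ N * ((r * s / α) ^ N / N.factorial) := by
        rw [div_pow]; field_simp
      unfold pw
      rw [e, mul_pow, ← Real.exp_nat_mul]
      have h5 : Real.exp (-(r * s)) * Real.exp (r * s / α) ≤ Real.exp (N * (1 - α)) := by
        rw [← Real.exp_add, Real.exp_le_exp]
        have h6 : -(r * s) + r * s / α = (r * s) * ((1 - α) / α) := by field_simp; ring
        have h7 : (N : ℝ) * (1 - α) = (N * α) * ((1 - α) / α) := by field_simp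
        rw [h6, h7]
        exact mul_le_mul_of_nonneg_right hrs' (div_nonneg (by linarith) hα0.le)
      calc Real.exp (-(r * s)) * (α ^ N * ((r * s / α) ^ N / N.factorial))
          ≤ Real.exp (-(r * s)) * (α ^ N * Real.exp (r * s / α)) := by gcongr
        _ = α ^ N * (Real.exp (-(r * s)) * Real.exp (r * s / α)) := by ring
        _ ≤ α ^ N * Real.exp (N * (1 - α)) := by gcongr
    have h8 := intervalIntegral.integral_mono_on (μ := volume) ha.le
      (((pw_cont r N).const_mul r).intervalIntegrable _ _)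
      (continuous_const.intervalIntegrable _ _) hb
    simp only [intervalIntegral.integral_const, sub_zero, smul_eq_mul] at h8
    have h9 : a * (r * (α * Real.exp (1 - α)) ^ N) = α * (N * (α * Real.exp (1 - α)) ^ N) := by
      rw [← mul_assoc, mul_comm a r, hra]; ring
    have h10 : 0 ≤ (N : ℝ) * (α * Real.exp (1 - α)) ^ N := by positivity
    nlinarith
  have e2 : ∑ j ∈ Finset.range (N + 1), pw r j b ≤ ε := by
    refine le_trans ?_ h2.le
    unfold pw
    rw [← Finset.mul_sum, hrb, mul_pow, ← Real.exp_nat_mul]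
    have h4 : ∑ j ∈ Finset.range (N + 1), ((N : ℝ) * β) ^ j / j.factorial
        ≤ β ^ N * Real.exp N := by
      refine le_trans ?_ (mul_le_mul_of_nonneg_left
        (Real.sum_le_exp_of_nonneg hN.le (N + 1)) (by positivity))
      rw [Finset.mul_sum]
      refine Finset.sum_le_sum fun j hj => ?_
      have hj' : j ≤ N := Nat.lt_succ_iff.1 (Finset.mem_range.1 hj)
      have h5 : β ^ j ≤ β ^ N := pow_le_pow_right₀ hβ1.le hj'
      rw [mul_pow, mul_comm, mul_div_assoc]
      gcongr
    calc Real.exp (-(N * β)) * ∑ j ∈ Finset.range (N + 1), ((N : ℝ) * β) ^ j / j.factorial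
        ≤ Real.exp (-(N * β)) * (β ^ N * Real.exp N) := by gcongr
      _ = β ^ N * (Real.exp (-(N * β)) * Real.exp N) := by ring
      _ = β ^ N * Real.exp (N * (1 - β)) := by rw [← Real.exp_add]; congr 2; ring
  refine ⟨N, r, hr0, e1, ?_⟩
  rw [pw_integral, pw_sum_zero] at e1
  rw [pw_integral]
  linarith

end Pool.Agent.Lib.MP_c2298c_an
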