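import Pool.Agent.Lib.MP_c2298c_an.DP
import Pool.Agent.Lib.MP_c2298c_an.Poisson

-- part Pool.Agent.Lib.MP_c2298c_an.Example
section

/-! The example: each block is a delay line, a fast state and a slow state. -/

namespace Pool.Agent.Lib.MP_c2298c_an

open MeasureTheory Filter Topology Set

/-- states of a block: `inl` the delay line, `inr false` the fast state, `inr true` the slow one -/
abbrev St (N : ℕ) : Type := Fin (N + 1) ⊕ Bool

/-- generator of a block -/
noncomputable def exA (N : ℕ) (r : ℝ) (ρ : Bool → ℝ) : Matrix (St N) (St N) ℝ := fun x y =>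
  match x, y with
  | Sum.inl i, Sum.inl j => (if i = j then -r else 0) + (if (i : ℕ) = j + 1 then r else 0)
  | Sum.inr a, Sum.inr b => if a = b then -ρ a else 0
  | _, _ => 0

/-- semigroup of a block -/
noncomputable def exE (N : ℕ) (r : ℝ) (ρ : Bool → ℝ) (t : ℝ) : Matrix (St N) (St N) ℝ :=
  fun x y =>
  match x, y with
  | Sum.inl i, Sum.inl j => if (j : ℕ) ≤ i then pw r (i - j) t else 0
  | Sum.inr a, Sum.inr b => if a = b then Real.exp (-(ρ a * t)) else 0
  | _, _ => 0

/-- perturbation of a block -/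
noncomputable def exB (N : ℕ) (r : ℝ) (ρ : Bool → ℝ) : Matrix (St N) (St N) ℝ := fun x y =>
  match x, y with
  | Sum.inr false, Sum.inl j => if j = Fin.last N then r / 2 else 0
  | Sum.inr true, Sum.inr b => ρ b / 2
  | _, _ => 0

section

variable (N : ℕ) (r : ℝ) (ρ : Bool → ℝ)

theorem exE_zero : exE N r ρ 0 = 1 := by
  ext x y
  rcases x with i | a <;> rcases y with j | b
  · simp only [exE, Matrix.one_apply, Sum.inl.injEq]
    by_cases h : i = j
    · subst h; simp [pw_zero_zero]
    · rw [if_neg h]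
      split_ifs with h2
      · have h3 : (i : ℕ) ≠ j := fun h' => h (Fin.ext h')
        obtain ⟨m, hm⟩ : ∃ m, (i : ℕ) - j = m + 1 := ⟨i - j - 1, by omega⟩
        rw [hm, pw_succ_zero]
      · rfl
  · simp [exE]
  · simp [exE]
  · simp [exE, Matrix.one_apply]

theorem sum_shift (i : Fin (N + 1)) (g : ℕ → ℝ) :
    ∑ l : Fin (N + 1), (if (i : ℕ) = l + 1 then r else 0) * g l
      = if (i : ℕ) = 0 then 0 else r * g (i - 1) := by
  split_ifs with h
  · exact Finset.sum_eq_zero fun l _ => by rw [if_neg (by omega), zero_mul]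
  · rw [Finset.sum_eq_single (⟨i - 1, by omega⟩ : Fin (N + 1))]
    · rw [if_pos (by simp only; omega)]
    · intro l _ hl
      rw [if_neg, zero_mul]
      intro h'
      apply hl
      apply Fin.ext
      simp only
      omega
    · simp

theorem exE_deriv (x y : St N) (t : ℝ) :
    HasDerivAt (fun t => exE N r ρ t x y) ((exA N r ρ * exE N r ρ t) x y) t := by
  rcases x with i | a <;> rcases y with j | b
  · have e : (exA N r ρ * exE N r ρ t) (Sum.inl i) (Sum.inl j) =
        -r * (if (j : ℕ) ≤ i then pw r (i - j) t else 0) +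
        (if (i : ℕ) = 0 then 0 else r * (if (j : ℕ) ≤ i - 1 then pw r (i - 1 - j) t else 0)) := by
      simp only [Matrix.mul_apply, Fintype.sum_sum_type, exA, exE, mul_zero,
        Finset.sum_const_zero, add_zero, add_mul, Finset.sum_add_distrib]
      rw [sum_shift N r i (fun l => if (j : ℕ) ≤ l then pw r (l - j) t else 0)]
      simp only [ite_mul, zero_mul, Finset.sum_ite_eq, Finset.mem_univ, if_true]
    rw [e]
    simp only [exE]
    by_cases h1 : (j : ℕ) ≤ i
    · simp only [if_pos h1]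
      by_cases h2 : (i : ℕ) = j
      · have h3 : (i : ℕ) - j = 0 := by omega
        rw [h3]
        refine (pw_deriv_zero r t).congr_deriv ?_
        split_ifs with h4 h5
        · simp
        · omega
        · simp
      · obtain ⟨m, hm⟩ : ∃ m, (i : ℕ) - j = m + 1 := ⟨i - j - 1, by omega⟩
        rw [hm]
        refine (pw_deriv_succ r m t).congr_deriv ?_
        rw [if_neg (by omega), if_pos (by omega)]
        have : (i : ℕ) - 1 - j = m := by omega
        rw [this]
    · simp only [if_neg h1]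
      refine (hasDerivAt_const t (0 : ℝ)).congr_deriv ?_
      split_ifs with h4 h5
      · simp
      · omega
      · simp
  · simp only [Matrix.mul_apply, Fintype.sum_sum_type, exA, exE, mul_zero, zero_mul,
      Finset.sum_const_zero, add_zero]
    exact hasDerivAt_const t (0 : ℝ)
  · simp only [Matrix.mul_apply, Fintype.sum_sum_type, exA, exE, mul_zero, zero_mul,
      Finset.sum_const_zero, add_zero]
    exact hasDerivAt_const t (0 : ℝ)
  · simp only [Matrix.mul_apply, Fintype.sum_sum_type, exA, exE, mul_zero,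
      Finset.sum_const_zero, zero_add]
    by_cases h : a = b
    · subst h
      simp only [if_true]
      refine (hasDerivAt_exp_neg_mul (ρ a) t).congr_deriv ?_
      cases a <;> simp
    · simp only [if_neg h]
      refine (hasDerivAt_const t (0 : ℝ)).congr_deriv ?_
      cases a <;> cases b <;> simp_all

theorem exE_nonneg (hr : 0 ≤ r) (t : ℝ) (ht : 0 ≤ t) (x y : St N) : 0 ≤ exE N r ρ t x y := by
  rcases x with i | a <;> rcases y with j | b <;> simp only [exE]
  · split_ifs
    · exact pw_nonneg hr _ ht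
    · exact le_rfl
  · exact le_rfl
  · exact le_rfl
  · split_ifs
    · exact (Real.exp_pos _).le
    · exact le_rfl

theorem exA_off (hr : 0 ≤ r) (x y : St N) (h : x ≠ y) : 0 ≤ exA N r ρ x y := by
  rcases x with i | a <;> rcases y with j | b <;> simp only [exA]
  · rw [if_neg (fun h' => h (by rw [h']))]
    split_ifs <;> simp [hr]
  · exact le_rfl
  · exact le_rfl
  · rw [if_neg (fun h' => h (by rw [h']))]

theorem exB_nonneg (hr : 0 ≤ r) (hρ : ∀ b, 0 ≤ ρ b) (x y : St N) : 0 ≤ exB N r ρ x y := by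
  rcases x with i | (_ | _) <;> rcases y with j | b <;> simp only [exB] <;> try exact le_rfl
  · split_ifs
    · positivity
    · exact le_rfl
  · have := hρ b
    positivity

theorem ex_col (y : St N) : 2 * ∑ x, exB N r ρ x y ≤ - ∑ x, exA N r ρ x y := by
  rcases y with j | b
  · simp only [Fintype.sum_sum_type, exA, exB, Finset.sum_const_zero, zero_add, add_zero,
      Fintype.sum_bool, Finset.sum_add_distrib, Finset.sum_ite_eq', Finset.mem_univ, if_true]
    by_cases h : j = Fin.last N
    · subst h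
      rw [if_pos rfl, Finset.sum_eq_zero]
      · linarith
      · intro i _
        rw [if_neg]
        have := i.2
        simp only [Fin.val_last]
        omega
    · rw [if_neg h]
      have hj : (j : ℕ) < N := by
        have h1 := j.2
        have h2 : (j : ℕ) ≠ N := fun h' => h (Fin.ext (by simpa using h'))
        omega
      rw [Finset.sum_eq_single (⟨j + 1, by omega⟩ : Fin (N + 1))]
      · simp
      · intro i _ hi
        rw [if_neg]
        intro h'
        exact hi (Fin.ext h')
      · simp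
  · simp only [Fintype.sum_sum_type, exA, exB, Finset.sum_const_zero, zero_add, add_zero,
      Fintype.sum_bool]
    cases b <;> simp <;> linarith

theorem prod_inl (M : Matrix (St N) (St N) ℝ) (s : ℝ) (x : St N) (j : Fin (N + 1)) :
    (M * exB N r ρ * exE N r ρ s) x (Sum.inl j)
      = M x (Sum.inr false) * (r / 2) * pw r (N - j) s := by
  simp only [Matrix.mul_apply, Fintype.sum_sum_type, exB, exE, mul_zero, Finset.sum_const_zero,
    zero_add, add_zero, Fintype.sum_bool]
  rw [Finset.sum_eq_single (Fin.last N)]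
  · have : (j : ℕ) ≤ N := Nat.lt_succ_iff.1 j.2
    simp [this]
  · intro i _ hi
    simp [hi]
  · simp

theorem prod_inr (M : Matrix (St N) (St N) ℝ) (s : ℝ) (x : St N) (c : Bool) :
    (M * exB N r ρ * exE N r ρ s) x (Sum.inr c)
      = M x (Sum.inr true) * (ρ c / 2) * Real.exp (-(ρ c * s)) := by
  simp only [Matrix.mul_apply, Fintype.sum_sum_type, exB, exE, mul_zero, Finset.sum_const_zero,
    zero_add, add_zero, Fintype.sum_bool]
  cases c <;> simp

theorem exE_col_inr (s : ℝ) (c : Bool) :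
    ∑ x, exE N r ρ s x (Sum.inr c) = Real.exp (-(ρ c * s)) := by
  simp only [Fintype.sum_sum_type, exE, Finset.sum_const_zero, zero_add, Fintype.sum_bool]
  cases c <;> simp

end

/-- parameters of the example -/
structure Par where
  N : ℕ → ℕ
  r : ℕ → ℝ
  ρ : ℕ → Bool → ℝ
  r_pos : ∀ k, 0 < r k
  ρ_pos : ∀ k b, 0 < ρ k b

/-- the blocks of the example -/
noncomputable def Par.blocks (P : Par) : Blocks (fun k => St (P.N k)) where
  A := fun k => exA (P.N k) (P.r k) (P.ρ k)
  B := fun k => exB (P.N k) (P.r k) (P.ρ k)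
  E := fun t k => exE (P.N k) (P.r k) (P.ρ k) t
  E_zero := fun _ => exE_zero _ _ _
  E_deriv := fun _ i j t => exE_deriv _ _ _ i j t
  E_nonneg := fun t ht k i j => exE_nonneg _ _ _ (P.r_pos k).le t ht i j
  A_off := fun k i j h => exA_off _ _ _ (P.r_pos k).le i j h
  B_nonneg := fun k i j => exB_nonneg _ _ _ (P.r_pos k).le (fun b => (P.ρ_pos k b).le) i j
  col := fun _ j => ex_col _ _ _ j

namespace Par

variable (P : Par)

theorem W_inl (j : ℕ) (t : ℝ) (k : ℕ) (x : St (P.N k)) (l : Fin (P.N k + 1)) :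
    P.blocks.Wm (j + 1) t k x (Sum.inl l) = ∫ s in (0 : ℝ)..t,
      P.blocks.Wm j (t - s) k x (Sum.inr false) * (P.r k / 2) * pw (P.r k) (P.N k - l) s := by
  rw [Blocks.Wm_succ]
  exact intervalIntegral.integral_congr fun s _ => prod_inl _ _ _ _ s x l

theorem W_inr (j : ℕ) (t : ℝ) (k : ℕ) (x : St (P.N k)) (c : Bool) :
    P.blocks.Wm (j + 1) t k x (Sum.inr c) = ∫ s in (0 : ℝ)..t,
      P.blocks.Wm j (t - s) k x (Sum.inr true) * (P.ρ k c / 2) * Real.exp (-(P.ρ k c * s)) := by
  rw [Blocks.Wm_succ]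
  exact intervalIntegral.integral_congr fun s _ => prod_inr _ _ _ _ s x c

theorem Wm_cont' (j : ℕ) (t : ℝ) (k : ℕ) (x y : St (P.N k)) :
    Continuous fun s => P.blocks.Wm j (t - s) k x y :=
  (P.blocks.Wm_cont j k x y).comp (continuous_const.sub continuous_id)

theorem integral_exp_neg (c a b : ℝ) :
    ∫ s in a..b, c * Real.exp (-(c * s)) = Real.exp (-(c * a)) - Real.exp (-(c * b)) := by
  have h := intervalIntegral.integral_eq_sub_of_hasDerivAt (a := a) (b := b)
    (fun s _ => hasDerivAt_exp_neg_mul c s) (Continuous.intervalIntegrable (by fun_prop) _ _)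
  simp only [neg_mul, intervalIntegral.integral_neg] at h
  linarith

theorem W1_col_inl (t : ℝ) (ht : 0 ≤ t) (k : ℕ) (l : Fin (P.N k + 1)) :
    ∑ x, P.blocks.Wm 1 t k x (Sum.inl l) ≤ P.r k / P.ρ k false := by
  have hr := P.r_pos k
  have hμ := P.ρ_pos k false
  simp only [W_inl]
  rw [← intervalIntegral.integral_finsetSum
    (f := fun x s => P.blocks.Wm 0 (t - s) k x (Sum.inr false) * (P.r k / 2)
        * pw (P.r k) (P.N k - l) s) (fun x _ => Continuous.intervalIntegrable
    (((P.Wm_cont' 0 t k x _).mul continuous_const).mul (pw_cont _ _)) _ _)]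
  have h1 : ∫ s in (0 : ℝ)..t, ∑ x, P.blocks.Wm 0 (t - s) k x (Sum.inr false) * (P.r k / 2)
        * pw (P.r k) (P.N k - l) s
      ≤ ∫ s in (0 : ℝ)..t, (P.r k / P.ρ k false) *
        (P.ρ k false * Real.exp (-(P.ρ k false * (t - s)))) := by
    refine intervalIntegral.integral_mono_on ht ?_ ?_ fun s hs => ?_
    · exact Continuous.intervalIntegrable (continuous_finsetSum _ fun x _ =>
        ((P.Wm_cont' 0 t k x _).mul continuous_const).mul (pw_cont _ _)) _ _
    · exact Continuous.intervalIntegrable (by fun_prop) _ _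
    · rw [← Finset.sum_mul, ← Finset.sum_mul]
      have e : ∑ x, P.blocks.Wm 0 (t - s) k x (Sum.inr false)
          = Real.exp (-(P.ρ k false * (t - s))) := exE_col_inr _ _ _ _ _
      rw [e]
      have h2 := pw_le_one hr.le (P.N k - l) hs.1
      have h3 := pw_nonneg hr.le (P.N k - l) hs.1
      have h4 := Real.exp_pos (-(P.ρ k false * (t - s)))
      have e2 : P.r k / P.ρ k false * (P.ρ k false * Real.exp (-(P.ρ k false * (t - s))))
          = Real.exp (-(P.ρ k false * (t - s))) * P.r k := by field_simp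
      rw [e2]
      have h5 : 0 ≤ Real.exp (-(P.ρ k false * (t - s))) * P.r k := by positivity
      nlinarith
  refine h1.trans ?_
  rw [intervalIntegral.integral_const_mul, intervalIntegral.integral_comp_sub_left
    (fun s => P.ρ k false * Real.exp (-(P.ρ k false * s))) t, integral_exp_neg]
  have h6 := Real.exp_pos (-(P.ρ k false * (t - 0)))
  have h7 : 0 < P.r k / P.ρ k false := by positivity
  simp only [sub_self, mul_zero, neg_zero, Real.exp_zero]
  nlinarith

theorem W1_col_inr (t : ℝ) (ht : 0 ≤ t) (k : ℕ) (hk : P.ρ k true ≤ P.ρ k false) (c : Bool) :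
    ∑ x, P.blocks.Wm 1 t k x (Sum.inr c) ≤ Real.exp (-(P.ρ k true * t / 2)) := by
  have hν := P.ρ_pos k true
  have hc := P.ρ_pos k c
  have hc' : P.ρ k true ≤ P.ρ k c := by cases c; exacts [hk, le_rfl]
  simp only [W_inr]
  rw [← intervalIntegral.integral_finsetSum
    (f := fun x s => P.blocks.Wm 0 (t - s) k x (Sum.inr true) * (P.ρ k c / 2)
        * Real.exp (-(P.ρ k c * s))) (fun x _ => Continuous.intervalIntegrable
    (((P.Wm_cont' 0 t k x _).mul continuous_const).mul (by fun_prop)) _ _)]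
  have h1 : ∫ s in (0 : ℝ)..t, ∑ x, P.blocks.Wm 0 (t - s) k x (Sum.inr true) * (P.ρ k c / 2)
        * Real.exp (-(P.ρ k c * s))
      ≤ ∫ s in (0 : ℝ)..t, Real.exp (-(P.ρ k true * t / 2)) *
        (P.ρ k c / 2 * Real.exp (-(P.ρ k c / 2 * s))) := by
    refine intervalIntegral.integral_mono_on ht ?_ ?_ fun s hs => ?_
    · exact Continuous.intervalIntegrable (continuous_finsetSum _ fun x _ =>
        ((P.Wm_cont' 0 t k x _).mul continuous_const).mul (by fun_prop)) _ _
    · exact Continuous.intervalIntegrable (by fun_prop) _ _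
    · rw [← Finset.sum_mul, ← Finset.sum_mul]
      have e : ∑ x, P.blocks.Wm 0 (t - s) k x (Sum.inr true)
          = Real.exp (-(P.ρ k true * (t - s))) := exE_col_inr _ _ _ _ _
      rw [e]
      have h2 : Real.exp (-(P.ρ k true * (t - s))) * Real.exp (-(P.ρ k c * s))
          ≤ Real.exp (-(P.ρ k true * t / 2)) * Real.exp (-(P.ρ k c / 2 * s)) := by
        rw [← Real.exp_add, ← Real.exp_add, Real.exp_le_exp]
        have h3 := mul_le_mul_of_nonneg_right hc' hs.1
        have h4 := mul_nonneg hν.le (sub_nonneg.2 hs.2)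
        nlinarith
      have h5 := mul_le_mul_of_nonneg_left h2 (half_pos hc).le
      nlinarith
  refine h1.trans ?_
  rw [intervalIntegral.integral_const_mul, integral_exp_neg]
  have h6 := Real.exp_pos (-(P.ρ k c / 2 * t))
  have h7 := Real.exp_pos (-(P.ρ k true * t / 2))
  simp only [mul_zero, neg_zero, Real.exp_zero]
  nlinarith

theorem W_hh (j : ℕ) (k : ℕ) : ∀ t : ℝ, P.blocks.Wm j t k (Sum.inr true) (Sum.inr true)
    = (P.ρ k true * t / 2) ^ j / j.factorial * Real.exp (-(P.ρ k true * t)) := by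
  induction j with
  | zero => intro t; simp [Blocks.Wm, blocks, exE]
  | succ j ih =>
    intro t
    rw [W_inr]
    have e : ∀ s, P.blocks.Wm j (t - s) k (Sum.inr true) (Sum.inr true) * (P.ρ k true / 2)
        * Real.exp (-(P.ρ k true * s)) = ((P.ρ k true / 2) ^ (j + 1) / j.factorial
          * Real.exp (-(P.ρ k true * t))) * (t - s) ^ j := by
      intro s
      rw [ih]
      have : Real.exp (-(P.ρ k true * t))
          = Real.exp (-(P.ρ k true * (t - s))) * Real.exp (-(P.ρ k true * s)) := by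
        rw [← Real.exp_add]; congr 1; ring
      rw [this]
      have e2 : P.ρ k true * (t - s) / 2 = (P.ρ k true / 2) * (t - s) := by ring
      rw [e2, mul_pow]
      ring
    simp only [e]
    rw [intervalIntegral.integral_const_mul,
      intervalIntegral.integral_comp_sub_left (fun s => s ^ j) t, integral_pow]
    have e3 : P.ρ k true * t / 2 = (P.ρ k true / 2) * t := by ring
    rw [e3, mul_pow, Nat.factorial_succ]
    have : (j.factorial : ℝ) ≠ 0 := by positivity
    push_cast
    simp only [sub_self, sub_zero, ne_eq, Nat.add_eq_zero_iff, one_ne_zero, and_false,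
      not_false_eq_true, zero_pow]
    field_simp

/-- the constant in the lower bounds -/
noncomputable def cst (j : ℕ) : ℝ := (1 / 4) ^ j / j.factorial * Real.exp (-2)

theorem cst_pos (j : ℕ) : 0 < cst j := by unfold cst; positivity

theorem W_hf_lower (j k : ℕ) (hk : 2 * P.ρ k true ≤ P.ρ k false) (τ : ℝ)
    (h1 : (P.ρ k true)⁻¹ ≤ τ) (h2 : τ ≤ 2 * (P.ρ k true)⁻¹) :
    cst j / 4 ≤ P.blocks.Wm (j + 1) τ k (Sum.inr true) (Sum.inr false) := by
  have hν := P.ρ_pos k true
  have hμ := P.ρ_pos k false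
  set δ : ℝ := (P.ρ k true)⁻¹ with hδ
  have hδ0 : 0 < δ := inv_pos.2 hν
  have hνδ : P.ρ k true * δ = 1 := mul_inv_cancel₀ hν.ne'
  rw [W_inr]
  have hcont : Continuous fun s => P.blocks.Wm j (τ - s) k (Sum.inr true) (Sum.inr true)
      * (P.ρ k false / 2) * Real.exp (-(P.ρ k false * s)) :=
    ((P.Wm_cont' j τ k _ _).mul continuous_const).mul (by fun_prop)
  have a1 : ∫ s in (0 : ℝ)..(δ / 2), P.blocks.Wm j (τ - s) k (Sum.inr true) (Sum.inr true)
      * (P.ρ k false / 2) * Real.exp (-(P.ρ k false * s))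
      ≤ ∫ s in (0 : ℝ)..τ, P.blocks.Wm j (τ - s) k (Sum.inr true) (Sum.inr true)
      * (P.ρ k false / 2) * Real.exp (-(P.ρ k false * s)) := by
    refine intervalIntegral.integral_mono_interval le_rfl (by linarith) (by linarith) ?_
      (hcont.intervalIntegrable _ _)
    rw [EventuallyLE, ae_restrict_iff' measurableSet_Ioc]
    refine Eventually.of_forall fun s hs => ?_
    have := P.blocks.Wm_nonneg j (τ - s) (sub_nonneg.2 hs.2) k (Sum.inr true) (Sum.inr true)
    simp only [Pi.zero_apply]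
    positivity
  refine le_trans ?_ a1
  have a2 : ∫ s in (0 : ℝ)..(δ / 2), cst j / 2 * (P.ρ k false * Real.exp (-(P.ρ k false * s)))
      ≤ ∫ s in (0 : ℝ)..(δ / 2), P.blocks.Wm j (τ - s) k (Sum.inr true) (Sum.inr true)
      * (P.ρ k false / 2) * Real.exp (-(P.ρ k false * s)) := by
    refine intervalIntegral.integral_mono_on (by linarith)
      (Continuous.intervalIntegrable (by fun_prop) _ _) (hcont.intervalIntegrable _ _)
      fun s hs => ?_
    have b1 : cst j ≤ P.blocks.Wm j (τ - s) k (Sum.inr true) (Sum.inr true) := by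
      rw [W_hh, cst]
      have c1 : δ / 2 ≤ τ - s := by linarith [hs.2]
      have c2 : τ - s ≤ 2 * δ := by linarith [hs.1]
      have c3 : 1 / 4 ≤ P.ρ k true * (τ - s) / 2 := by nlinarith
      have c4 : -2 ≤ -(P.ρ k true * (τ - s)) := by nlinarith
      gcongr
    have b2 : 0 ≤ P.ρ k false / 2 * Real.exp (-(P.ρ k false * s)) := by positivity
    have b3 := mul_le_mul_of_nonneg_right b1 b2
    nlinarith
  refine le_trans ?_ a2
  rw [intervalIntegral.integral_const_mul, integral_exp_neg]
  have b4 : Real.exp (-(P.ρ k false * (δ / 2))) ≤ 1 / 2 := by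
    have c5 : 1 ≤ P.ρ k false * (δ / 2) := by nlinarith
    have c6 := Real.add_one_le_exp (P.ρ k false * (δ / 2))
    rw [Real.exp_neg, one_div]
    exact inv_anti₀ two_pos (by linarith)
  have := cst_pos j
  simp only [mul_zero, neg_zero, Real.exp_zero]
  nlinarith

theorem W_lower (j k : ℕ) (hk : 2 * P.ρ k true ≤ P.ρ k false) (hν2 : 2 ≤ P.ρ k true)
    (hc : 1 / 2 ≤ ∫ s in (1 - 2 * (P.ρ k true)⁻¹)..(1 - (P.ρ k true)⁻¹),
      P.r k * pw (P.r k) (P.N k) s) :
    cst j / 16 ≤ P.blocks.Wm (j + 2) 1 k (Sum.inr true) (Sum.inl 0) := by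
  have hν := P.ρ_pos k true
  have hr := P.r_pos k
  have hlow := P.W_hf_lower j k hk
  set δ : ℝ := (P.ρ k true)⁻¹ with hδ
  have hδ0 : 0 < δ := inv_pos.2 hν
  have hδ1 : δ ≤ 1 / 2 := by rw [hδ, one_div]; exact inv_anti₀ two_pos hν2
  rw [W_inl]
  simp only [Fin.val_zero, Nat.sub_zero]
  have hcont : Continuous fun s => P.blocks.Wm (j + 1) (1 - s) k (Sum.inr true) (Sum.inr false)
      * (P.r k / 2) * pw (P.r k) (P.N k) s :=
    ((P.Wm_cont' (j + 1) 1 k _ _).mul continuous_const).mul (pw_cont _ _)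
  have a1 : ∫ s in (1 - 2 * δ)..(1 - δ),
      P.blocks.Wm (j + 1) (1 - s) k (Sum.inr true) (Sum.inr false)
      * (P.r k / 2) * pw (P.r k) (P.N k) s
      ≤ ∫ s in (0 : ℝ)..1, P.blocks.Wm (j + 1) (1 - s) k (Sum.inr true) (Sum.inr false)
      * (P.r k / 2) * pw (P.r k) (P.N k) s := by
    refine intervalIntegral.integral_mono_interval (by linarith) (by linarith) (by linarith) ?_
      (hcont.intervalIntegrable _ _)
    rw [EventuallyLE, ae_restrict_iff' measurableSet_Ioc]
    refine Eventually.of_forall fun s hs => ?_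
    have := P.blocks.Wm_nonneg (j + 1) (1 - s) (sub_nonneg.2 hs.2) k (Sum.inr true) (Sum.inr false)
    have := pw_nonneg hr.le (P.N k) hs.1.le
    simp only [Pi.zero_apply]
    positivity
  refine le_trans ?_ a1
  have a2 : ∫ s in (1 - 2 * δ)..(1 - δ), cst j / 8 * (P.r k * pw (P.r k) (P.N k) s)
      ≤ ∫ s in (1 - 2 * δ)..(1 - δ),
      P.blocks.Wm (j + 1) (1 - s) k (Sum.inr true) (Sum.inr false)
      * (P.r k / 2) * pw (P.r k) (P.N k) s := by
    refine intervalIntegral.integral_mono_on (by linarith)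
      ((((pw_cont _ _).const_mul _).const_mul _).intervalIntegrable _ _)
      (hcont.intervalIntegrable _ _) fun s hs => ?_
    have b1 := hlow (1 - s) (by linarith [hs.2]) (by linarith [hs.1])
    have b2 : 0 ≤ P.r k / 2 * pw (P.r k) (P.N k) s := by
      have := pw_nonneg hr.le (P.N k) (t := s) (by linarith [hs.1])
      positivity
    have b3 := mul_le_mul_of_nonneg_right b1 b2
    nlinarith
  refine le_trans ?_ a2
  rw [intervalIntegral.integral_const_mul]
  have := cst_pos j
  nlinarith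

theorem W_upper (j k : ℕ) (t a : ℝ) (ht : 0 ≤ t) (hta : t ≤ a) :
    P.blocks.Wm (j + 1) t k (Sum.inr true) (Sum.inl 0)
      ≤ ∫ s in (0 : ℝ)..a, P.r k * pw (P.r k) (P.N k) s := by
  have hr := P.r_pos k
  rw [W_inl]
  simp only [Fin.val_zero, Nat.sub_zero]
  have hc2 : Continuous fun s => P.r k * pw (P.r k) (P.N k) s := (pw_cont _ _).const_mul _
  have a1 : ∫ s in (0 : ℝ)..t, P.r k * pw (P.r k) (P.N k) s
      ≤ ∫ s in (0 : ℝ)..a, P.r k * pw (P.r k) (P.N k) s := by
    refine intervalIntegral.integral_mono_interval le_rfl ht hta ?_ (hc2.intervalIntegrable _ _)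
    rw [EventuallyLE, ae_restrict_iff' measurableSet_Ioc]
    refine Eventually.of_forall fun s hs => ?_
    have := pw_nonneg hr.le (P.N k) hs.1.le
    simp only [Pi.zero_apply]
    positivity
  refine le_trans ?_ a1
  refine intervalIntegral.integral_mono_on ht
    ((((P.Wm_cont' j t k _ _).mul continuous_const).mul (pw_cont _ _)).intervalIntegrable _ _)
    (hc2.intervalIntegrable _ _) fun s hs => ?_
  have b0 := P.blocks.Wm_nonneg j (t - s) (sub_nonneg.2 hs.2) k
  have b1 : P.blocks.Wm j (t - s) k (Sum.inr true) (Sum.inr false) ≤ 1 :=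
    le_trans (Finset.single_le_sum (f := fun x => P.blocks.Wm j (t - s) k x (Sum.inr false))
      (fun x _ => b0 x _) (Finset.mem_univ _))
      (P.blocks.Wm_colsum j (t - s) (sub_nonneg.2 hs.2) k _)
  have b2 : 0 ≤ P.r k * pw (P.r k) (P.N k) s := mul_nonneg hr.le (pw_nonneg hr.le _ hs.1)
  have b3 := b0 (Sum.inr true) (Sum.inr false)
  nlinarith

end Par

end Pool.Agent.Lib.MP_c2298c_an
end

-- part Pool.Agent.Lib.MP_c2298c_an.Final
section

/-! Choice of the parameters and the properties of the example. -/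

namespace Pool.Agent.Lib.MP_c2298c_an

open MeasureTheory Filter Topology Set

theorem exists_par : ∃ P : Par, (∀ k, P.ρ k true = k + 4) ∧
    (∀ k, P.ρ k false = (k + 1) * P.r k + 2 * (k + 4)) ∧
    (∀ k, ∫ s in (0 : ℝ)..(1 - 2 * ((k : ℝ) + 4)⁻¹), P.r k * pw (P.r k) (P.N k) s
      ≤ ((k : ℝ) + 4)⁻¹) ∧
    (∀ k, 1 / 2 ≤ ∫ s in (1 - 2 * ((k : ℝ) + 4)⁻¹)..(1 - ((k : ℝ) + 4)⁻¹),
      P.r k * pw (P.r k) (P.N k) s) := by
  have hinv : ∀ k : ℕ, ((k : ℝ) + 4)⁻¹ ≤ 1 / 4 := fun k => by
    rw [one_div]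
    exact inv_anti₀ four_pos (by linarith [(Nat.cast_nonneg k : (0 : ℝ) ≤ k)])
  have hpos : ∀ k : ℕ, 0 < ((k : ℝ) + 4)⁻¹ := fun k => by positivity
  have h : ∀ k : ℕ, ∃ (N : ℕ) (r : ℝ), 0 < r ∧
      ∫ s in (0 : ℝ)..(1 - 2 * ((k : ℝ) + 4)⁻¹), r * pw r N s ≤ ((k : ℝ) + 4)⁻¹ ∧
      1 - 2 * ((k : ℝ) + 4)⁻¹ ≤
        ∫ s in (1 - 2 * ((k : ℝ) + 4)⁻¹)..(1 - ((k : ℝ) + 4)⁻¹), r * pw r N s := fun k =>
    concentration (by linarith [hinv k]) (by linarith [hpos k]) (hpos k)
  choose N r hr h1 h2 using h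
  refine ⟨⟨N, r, fun k b => if b then k + 4 else (k + 1) * r k + 2 * (k + 4), hr, fun k b => ?_⟩,
    fun k => by simp, fun k => by simp, h1, fun k => ?_⟩
  · have := hr k
    cases b <;> simp only [Bool.false_eq_true, if_false, if_true] <;> positivity
  · exact le_trans (by linarith [hinv k]) (h2 k)

theorem exists_example : ∃ P : Par,
    (∀ t, 0 ≤ t → IsCompactOperator (P.blocks.W 1 t)) ∧
    (∀ j, ¬ IsCompactOperator (P.blocks.W (j + 2) 1)) ∧
    (∀ j, ¬ ContinuousWithinAt (P.blocks.W (j + 2)) (Ici 0) 1) := by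
  obtain ⟨P, hν, hμ, h1, h2⟩ := exists_par
  have hk2 : ∀ k, 2 * P.ρ k true ≤ P.ρ k false := fun k => by
    rw [hν, hμ]
    have := P.r_pos k
    have : 0 ≤ ((k : ℝ) + 1) * P.r k := by positivity
    linarith
  have hlow : ∀ j k, Par.cst j / 16 ≤ P.blocks.Wm (j + 2) 1 k (Sum.inr true) (Sum.inl 0) :=
    fun j k => P.W_lower j k (hk2 k)
      (by rw [hν]; linarith [(Nat.cast_nonneg k : (0 : ℝ) ≤ k)]) (by rw [hν]; exact h2 k)
  have tinv : Tendsto (fun k : ℕ => ((k : ℝ) + 4)⁻¹) atTop (𝓝 0) :=
    tendsto_inv_atTop_zero.comp (tendsto_atTop_add_const_right _ _ tendsto_natCast_atTop_atTop)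
  refine ⟨P, fun t ht => ?_, fun j => ?_, fun j => ?_⟩
  · refine isCompactOperator_op (P.blocks.Wm_colBd 1 t ht) zero_le_one fun ε hε => ?_
    rcases ht.eq_or_lt with rfl | ht0
    · refine ⟨0, fun k _ l => ?_⟩
      simp [Blocks.Wm_succ, hε.le]
    · have t1 : Tendsto (fun k : ℕ => ((k : ℝ) + 1)⁻¹) atTop (𝓝 0) :=
        tendsto_inv_atTop_zero.comp (tendsto_atTop_add_const_right _ _ tendsto_natCast_atTop_atTop)
      have t2 : Tendsto (fun k : ℕ => Real.exp (-(((k : ℝ) + 4) * t / 2))) atTop (𝓝 0) :=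
        Real.tendsto_exp_neg_atTop_nhds_zero.comp
          (((tendsto_atTop_add_const_right _ _ tendsto_natCast_atTop_atTop).atTop_mul_const
            ht0).atTop_div_const two_pos)
      obtain ⟨K, hK⟩ := eventually_atTop.1
        ((t1.eventually (gt_mem_nhds hε)).and (t2.eventually (gt_mem_nhds hε)))
      refine ⟨K, fun k hk l => ?_⟩
      rw [Finset.sum_congr rfl fun i _ => abs_of_nonneg (P.blocks.Wm_nonneg 1 t ht k i l)]
      rcases l with l | c
      · refine (P.W1_col_inl t ht k l).trans (le_trans ?_ (hK k hk).1.le)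
        have hr := P.r_pos k
        rw [div_le_iff₀ (P.ρ_pos k false), hμ, mul_add, ← mul_assoc,
          inv_mul_cancel₀ (by positivity), one_mul]
        have : 0 ≤ ((k : ℝ) + 1)⁻¹ * (2 * (k + 4)) := by positivity
        linarith
      · refine (P.W1_col_inr t ht k (by linarith [hk2 k, P.ρ_pos k true]) c).trans ?_
        rw [hν]
        exact (hK k hk).2.le
  · exact not_isCompactOperator_op (P.blocks.Wm_colBd (j + 2) 1 zero_le_one)
      (d := Par.cst j / 16) (by have := Par.cst_pos j; positivity) fun k => ⟨_, _, hlow j k⟩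
  · have hc : 0 < Par.cst j / 32 := by have := Par.cst_pos j; positivity
    refine not_continuousWithinAt_op (M := fun t => P.blocks.Wm (j + 2) t)
      (fun t ht => P.blocks.Wm_colBd (j + 2) t ht) hc fun t ht ht1 => ?_
    obtain ⟨k, hk1, hk2⟩ := ((tinv.eventually (gt_mem_nhds hc)).and
      (tinv.eventually (gt_mem_nhds (half_pos (sub_pos.2 ht1))))).exists
    refine ⟨k, Sum.inr true, Sum.inl 0, ?_⟩
    have a1 := P.W_upper (j + 1) k t (1 - 2 * ((k : ℝ) + 4)⁻¹) ht (by linarith)
    have a2 := h1 k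
    have a3 := hlow j k
    linarith

end Pool.Agent.Lib.MP_c2298c_an
end
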