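import Mathlib

/-!
Definitions for the question on Dyson-Phillips terms of an unbounded positive perturbation of a
substochastic semigroup.  They are written for an ordered normed space `X` and are used with
`X = L¹(ν)`, the real Lebesgue space with its almost-everywhere order.
-/

namespace Pool.Agent.Lib.MP_c2298c_an

open MeasureTheory Filter Topology Set
open scoped ENNReal NNReal

variable {X : Type} [NormedAddCommGroup X] [NormedSpace ℝ X] [PartialOrder X]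

/-- `U` is a substochastic `C₀`-semigroup on `X`: a strongly continuous semigroup of positive
contractions (only the values at `t ≥ 0` matter). -/
structure IsSubstochasticSemigroup (U : ℝ → (X →L[ℝ] X)) : Prop where
  map_zero : U 0 = 1
  map_add : ∀ s t : ℝ, 0 ≤ s → 0 ≤ t → U (s + t) = U s * U t
  strongly_continuous : ∀ φ : X, ContinuousOn (fun t => U t φ) (Ici 0)
  positive : ∀ t : ℝ, 0 ≤ t → ∀ φ : X, 0 ≤ φ → 0 ≤ U t φ
  contraction : ∀ t : ℝ, 0 ≤ t → ‖U t‖ ≤ 1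

omit [PartialOrder X] in
/-- `T` is the generator of `U`: `φ ∈ D(T)` and `T φ = ψ` exactly when
`(U t φ - φ) / t → ψ` in norm as `t ↓ 0`. -/
def IsGenerator (U : ℝ → (X →L[ℝ] X)) (T : X →ₗ.[ℝ] X) : Prop :=
  ∀ φ ψ : X, (∃ h : φ ∈ T.domain, T ⟨φ, h⟩ = ψ) ↔
    Tendsto (fun t : ℝ => t⁻¹ • (U t φ - φ)) (𝓝[>] 0) (𝓝 ψ)

omit [PartialOrder X] in
/-- The spectral radius of a bounded operator, by Gelfand's formula `limsup ‖C ^ m‖ ^ (1 / m)`. -/
noncomputable def specRadius (C : X →L[ℝ] X) : ℝ≥0∞ :=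
  limsup (fun m : ℕ => (‖C ^ m‖₊ : ℝ≥0∞) ^ (1 / m : ℝ)) atTop

/-- The hypotheses on the perturbation `B : D(T) → X`: it is `T`-bounded and positive, and for
all large real `l` the operator `l - T` has a bounded inverse `R` and the bounded operator
`C = B R` has spectral radius `< 1`. -/
structure IsAdmissiblePerturbation (T : X →ₗ.[ℝ] X)
    (B : T.domain →ₗ[ℝ] X) : Prop where
  relatively_bounded : ∃ a b : ℝ, ∀ φ : T.domain, ‖B φ‖ ≤ a * ‖(φ : X)‖ + b * ‖T φ‖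
  positive : ∀ φ : T.domain, 0 ≤ (φ : X) → 0 ≤ B φ
  small : ∃ l₀ : ℝ, ∀ l : ℝ, l₀ ≤ l → ∃ R C : X →L[ℝ] X,
    (∀ φ : X, ∃ h : R φ ∈ T.domain, l • R φ - T ⟨R φ, h⟩ = φ ∧ C φ = B ⟨R φ, h⟩) ∧
    (∀ φ : T.domain, R (l • (φ : X) - T φ) = φ) ∧ specRadius C < 1

/-- `W j t` (`j ≥ 0`, `t ≥ 0`) are the Dyson-Phillips terms: bounded positive operators with
`W 0 t = U t` and `W (j+1) t φ = ∫₀ᵗ W j (t - s) B U(s) φ ds` (a convergent Bochner integral) for
every `φ ∈ D(T)`. -/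
structure IsDysonPhillips (U : ℝ → (X →L[ℝ] X)) (T : X →ₗ.[ℝ] X)
    (B : T.domain →ₗ[ℝ] X) (W : ℕ → ℝ → (X →L[ℝ] X)) : Prop where
  zero : ∀ t : ℝ, 0 ≤ t → W 0 t = U t
  positive : ∀ (j : ℕ) (t : ℝ), 0 ≤ t → ∀ φ : X, 0 ≤ φ → 0 ≤ W j t φ
  succ : ∀ (j : ℕ) (t : ℝ), 0 ≤ t → ∀ φ ∈ T.domain, ∃ g : ℝ → X,
    (∀ s ∈ Icc 0 t, ∃ h : U s φ ∈ T.domain, g s = W j (t - s) (B ⟨U s φ, h⟩)) ∧
    IntervalIntegrable g volume 0 t ∧ W (j + 1) t φ = ∫ s in (0 : ℝ)..t, g s

omit [PartialOrder X] in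
/-- `A` is weakly compact: it maps bounded sets to sets whose closure in the weak topology is
weakly compact. -/
def IsWeaklyCompactOperator (A : X →L[ℝ] X) : Prop :=
  ∀ s : Set X, Bornology.IsBounded s →
    IsCompact (closure (toWeakSpace ℝ X '' (A '' s)))

/-- The setting of the question: `U` is a substochastic semigroup with generator `T`, `B` is an
admissible perturbation and `W` are the Dyson-Phillips terms. -/
def IsSetting (U : ℝ → (X →L[ℝ] X)) (T : X →ₗ.[ℝ] X) (B : T.domain →ₗ[ℝ] X)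
    (W : ℕ → ℝ → (X →L[ℝ] X)) : Prop :=
  IsSubstochasticSemigroup U ∧ IsGenerator U T ∧ IsAdmissiblePerturbation T B ∧
    IsDysonPhillips U T B W

variable (X) in
/-- On `X` there are `U, T, B, W` as in the setting and an `n` such that every `W n t` is weakly
compact while both conclusions of the question fail, each at some positive time. -/
def BothConclusionsFail : Prop :=
  ∃ (U : ℝ → (X →L[ℝ] X)) (T : X →ₗ.[ℝ] X) (B : T.domain →ₗ[ℝ] X)
    (W : ℕ → ℝ → (X →L[ℝ] X)) (n : ℕ), IsSetting U T B W ∧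
    (∀ t : ℝ, 0 ≤ t → IsWeaklyCompactOperator (W n t)) ∧
    (∃ t : ℝ, 0 < t ∧ ¬ IsCompactOperator (W (2 * n + 1) t)) ∧
    (∃ t : ℝ, 0 < t ∧
      ¬ Tendsto (fun s : ℝ => ‖W (2 * n + 2) s - W (2 * n + 2) t‖) (𝓝[Ici 0] t) (𝓝 0))

end Pool.Agent.Lib.MP_c2298c_an
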