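import Mathlib
import Pool.Agent.Lib.MP_c2298c_an.Defs

-- part Pool.Agent.Lib.MP_c2298c_an.L1
section

/-! Basic interface for `L¹` of the counting measure on a countable type. -/

namespace Pool.Agent.Lib.MP_c2298c_an

open MeasureTheory Filter Topology Set

/-- The index set of all blocks. -/
def Om (S : ℕ → Type) : Type := Σ k : ℕ, S k

instance (S : ℕ → Type) : MeasurableSpace (Om S) := ⊤
instance (S : ℕ → Type) : DiscreteMeasurableSpace (Om S) := ⟨fun _ => trivial⟩
instance (S : ℕ → Type) [∀ k, Fintype (S k)] : Countable (Om S) := by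
  unfold Om; infer_instance

/-- The space. -/
abbrev XX (S : ℕ → Type) : Type := Lp ℝ 1 (Measure.count : Measure (Om S))

variable {S : ℕ → Type} [∀ k, Fintype (S k)]

/-- coordinates -/
noncomputable def co (φ : XX S) (k : ℕ) (i : S k) : ℝ := (φ : Om S → ℝ) (⟨k, i⟩ : Σ k, S k)

theorem summable_abs (φ : XX S) : Summable (fun x : Σ k, S k => |co φ x.1 x.2|) := by
  have h := (L1.integrable_coeFn φ)
  rw [integrable_count_iff] at h
  exact h

theorem norm_eq_tsum (φ : XX S) : ‖φ‖ = ∑' x : Σ k, S k, |co φ x.1 x.2| := by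
  rw [L1.norm_eq_integral_norm, integral_countable (L1.integrable_coeFn φ).norm]
  simp only [count_real_singleton, smul_eq_mul, one_mul]
  rfl

/-- norm of a block -/
noncomputable def bn (φ : XX S) (k : ℕ) : ℝ := ∑ i, |co φ k i|

theorem bn_nonneg (φ : XX S) (k : ℕ) : 0 ≤ bn φ k :=
  Finset.sum_nonneg fun _ _ => abs_nonneg _

theorem summable_bn (φ : XX S) : Summable (bn φ) := by
  have h := (summable_sigma_of_nonneg (f := fun x : Σ k, S k => |co φ x.1 x.2|)
    (fun _ => abs_nonneg _)).1 (summable_abs φ)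
  have h2 := h.2
  simp only [tsum_fintype] at h2
  exact h2

theorem norm_eq_tsum_bn (φ : XX S) : ‖φ‖ = ∑' k, bn φ k := by
  rw [norm_eq_tsum, (summable_abs φ).tsum_sigma]
  simp only [tsum_fintype]
  rfl

theorem bn_le_norm (φ : XX S) (k : ℕ) : bn φ k ≤ ‖φ‖ := by
  rw [norm_eq_tsum_bn]
  exact (summable_bn φ).le_tsum k (fun j _ => bn_nonneg φ j)

theorem abs_co_le_bn (φ : XX S) (k : ℕ) (i : S k) : |co φ k i| ≤ bn φ k :=
  Finset.single_le_sum (f := fun i => |co φ k i|) (fun _ _ => abs_nonneg _) (Finset.mem_univ i)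

theorem abs_co_le (φ : XX S) (k : ℕ) (i : S k) : |co φ k i| ≤ ‖φ‖ :=
  (abs_co_le_bn φ k i).trans (bn_le_norm φ k)

omit [∀ k, Fintype (S k)] in
theorem co_add (φ ψ : XX S) (k : ℕ) (i : S k) : co (φ + ψ) k i = co φ k i + co ψ k i :=
  Measure.ae_count_iff.1 (Lp.coeFn_add φ ψ) _

omit [∀ k, Fintype (S k)] in
theorem co_sub (φ ψ : XX S) (k : ℕ) (i : S k) : co (φ - ψ) k i = co φ k i - co ψ k i :=
  Measure.ae_count_iff.1 (Lp.coeFn_sub φ ψ) _

omit [∀ k, Fintype (S k)] in
theorem co_smul (c : ℝ) (φ : XX S) (k : ℕ) (i : S k) : co (c • φ) k i = c * co φ k i :=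
  Measure.ae_count_iff.1 (Lp.coeFn_smul c φ) _

omit [∀ k, Fintype (S k)] in
theorem co_zero (k : ℕ) (i : S k) : co (0 : XX S) k i = 0 :=
  Measure.ae_count_iff.1 (Lp.coeFn_zero ℝ 1 (Measure.count : Measure (Om S))) _

omit [∀ k, Fintype (S k)] in
theorem xx_ext {φ ψ : XX S} (h : ∀ k i, co φ k i = co ψ k i) : φ = ψ := by
  apply Lp.ext
  exact Eventually.of_forall fun x => h x.1 x.2

omit [∀ k, Fintype (S k)] in
theorem nonneg_iff (φ : XX S) : 0 ≤ φ ↔ ∀ k i, 0 ≤ co φ k i := by
  rw [← Lp.coeFn_nonneg]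
  constructor
  · intro h k i
    exact Measure.ae_count_iff.1 h _
  · intro h
    exact Eventually.of_forall fun x => h x.1 x.2

/-- coordinate functional -/
noncomputable def ev (k : ℕ) (i : S k) : XX S →L[ℝ] ℝ :=
  LinearMap.mkContinuous
    { toFun := fun φ => co φ k i
      map_add' := fun φ ψ => co_add φ ψ k i
      map_smul' := fun c φ => co_smul c φ k i } 1
    (fun φ => by simpa using abs_co_le φ k i)

@[simp] theorem ev_apply (k : ℕ) (i : S k) (φ : XX S) : ev k i φ = co φ k i := rfl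

theorem integrable_of_summable (f : ∀ k, S k → ℝ) (hf : Summable fun k => ∑ i, |f k i|) :
    Integrable (fun x : Om S => f x.1 x.2) Measure.count := by
  rw [integrable_count_iff]
  refine (summable_sigma_of_nonneg (f := fun x : Σ k, S k => |f x.1 x.2|)
    (fun _ => abs_nonneg _)).2 ⟨fun k => Summable.of_finite, ?_⟩
  simpa only [tsum_fintype] using hf

/-- the element with given coordinates -/
noncomputable def mkX (f : ∀ k, S k → ℝ) (hf : Summable fun k => ∑ i, |f k i|) : XX S :=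
  (integrable_of_summable f hf).toL1 _

theorem co_mkX (f : ∀ k, S k → ℝ) (hf : Summable fun k => ∑ i, |f k i|) (k : ℕ) (i : S k) :
    co (mkX f hf) k i = f k i :=
  Measure.ae_count_iff.1 (Integrable.coeFn_toL1 (integrable_of_summable f hf)) _

/-- families of matrices -/
abbrev Fam (S : ℕ → Type) : Type := ∀ k, Matrix (S k) (S k) ℝ

/-- uniform bound of the column sums -/
def ColBd (M : Fam S) (c : ℝ) : Prop := ∀ k j, ∑ i, |M k i j| ≤ c

theorem sum_abs_mulVec_le {k : ℕ} (M : Matrix (S k) (S k) ℝ) {c : ℝ} (h : ∀ j, ∑ i, |M i j| ≤ c)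
    (v : S k → ℝ) : ∑ i, |∑ j, M i j * v j| ≤ c * ∑ j, |v j| := by
  calc ∑ i, |∑ j, M i j * v j| ≤ ∑ i, ∑ j, |M i j| * |v j| := by
        refine Finset.sum_le_sum fun i _ => (Finset.abs_sum_le_sum_abs _ _).trans ?_
        simp only [abs_mul, le_refl]
    _ = ∑ j, (∑ i, |M i j|) * |v j| := by
        rw [Finset.sum_comm]; simp only [Finset.sum_mul]
    _ ≤ ∑ j, c * |v j| := Finset.sum_le_sum fun j _ =>
        mul_le_mul_of_nonneg_right (h j) (abs_nonneg _)
    _ = c * ∑ j, |v j| := by rw [Finset.mul_sum]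

theorem summable_op {M : Fam S} {c : ℝ} (h : ColBd M c) (φ : XX S) :
    Summable fun k => ∑ i, |∑ j, M k i j * co φ k j| := by
  refine Summable.of_nonneg_of_le (fun k => Finset.sum_nonneg fun _ _ => abs_nonneg _)
    (fun k => sum_abs_mulVec_le (M k) (h k) _) ((summable_bn φ).mul_left c)

/-- block diagonal operator, bounded case -/
noncomputable def opAux {M : Fam S} {c : ℝ} (h : ColBd M c) : XX S →L[ℝ] XX S :=
  LinearMap.mkContinuous
    { toFun := fun φ => mkX (fun k i => ∑ j, M k i j * co φ k j) (summable_op h φ)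
      map_add' := fun φ ψ => xx_ext fun k i => by
        simp only [co_add, co_mkX, mul_add, Finset.sum_add_distrib]
      map_smul' := fun a φ => xx_ext fun k i => by
        simp only [co_smul, co_mkX, RingHom.id_apply, Finset.mul_sum]
        exact Finset.sum_congr rfl fun j _ => by ring } c
    (fun φ => by
      simp only [LinearMap.coe_mk, AddHom.coe_mk]
      rw [norm_eq_tsum_bn, norm_eq_tsum_bn, ← tsum_mul_left]
      refine Summable.tsum_le_tsum (fun k => ?_) (summable_bn _) ((summable_bn φ).mul_left c)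
      simp only [bn, co_mkX]
      exact sum_abs_mulVec_le (M k) (h k) _)

open Classical in
/-- block diagonal operator -/
noncomputable def op (M : Fam S) : XX S →L[ℝ] XX S :=
  if h : ∃ c, ColBd M c then opAux h.choose_spec else 0

theorem co_op {M : Fam S} {c : ℝ} (h : ColBd M c) (φ : XX S) (k : ℕ) (i : S k) :
    co (op M φ) k i = ∑ j, M k i j * co φ k j := by
  have h' : ∃ c, ColBd M c := ⟨c, h⟩
  simp only [op, dif_pos h']
  exact co_mkX _ _ k i

theorem bn_op_le {M : Fam S} {c : ℝ} (h : ColBd M c) (φ : XX S) (k : ℕ) {d : ℝ}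
    (hd : ∀ j, ∑ i, |M k i j| ≤ d) : bn (op M φ) k ≤ d * bn φ k := by
  simp only [bn, co_op h]
  exact sum_abs_mulVec_le (M k) hd _

theorem norm_op_apply_le {M : Fam S} {c : ℝ} (h : ColBd M c) (φ : XX S) :
    ‖op M φ‖ ≤ c * ‖φ‖ := by
  rw [norm_eq_tsum_bn, norm_eq_tsum_bn, ← tsum_mul_left]
  exact Summable.tsum_le_tsum (fun k => bn_op_le h φ k (h k)) (summable_bn _)
    ((summable_bn φ).mul_left c)

theorem norm_op_le {M : Fam S} {c : ℝ} (h : ColBd M c) (hc : 0 ≤ c) : ‖op M‖ ≤ c :=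
  ContinuousLinearMap.opNorm_le_bound _ hc (norm_op_apply_le h)

theorem ColBd.mul {M N : Fam S} {c d : ℝ} (hM : ColBd M c) (hN : ColBd N d) (hc : 0 ≤ c) :
    ColBd (fun k => M k * N k) (c * d) := by
  intro k j
  simp only [Matrix.mul_apply]
  exact (sum_abs_mulVec_le (M k) (hM k) (fun l => N k l j)).trans
    (mul_le_mul_of_nonneg_left (hN k j) hc)

theorem ColBd.sub {M N : Fam S} {c d : ℝ} (hM : ColBd M c) (hN : ColBd N d) :
    ColBd (fun k => M k - N k) (c + d) := by
  intro k j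
  simp only [Matrix.sub_apply]
  calc ∑ i, |M k i j - N k i j| ≤ ∑ i, (|M k i j| + |N k i j|) :=
        Finset.sum_le_sum fun i _ => abs_sub _ _
    _ ≤ c + d := by rw [Finset.sum_add_distrib]; exact add_le_add (hM k j) (hN k j)

theorem op_mul {M N : Fam S} {c d : ℝ} (hM : ColBd M c) (hN : ColBd N d) (hc : 0 ≤ c) :
    op (fun k => M k * N k) = op M * op N := by
  ext1 φ
  refine xx_ext fun k i => ?_
  rw [co_op (hM.mul hN hc), mul_apply_eq_comp, co_op hM]
  simp only [co_op hN, Matrix.mul_apply, Finset.sum_mul, Finset.mul_sum]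
  rw [Finset.sum_comm]
  exact Finset.sum_congr rfl fun _ _ => Finset.sum_congr rfl fun _ _ => by ring

theorem op_sub {M N : Fam S} {c d : ℝ} (hM : ColBd M c) (hN : ColBd N d) :
    op (fun k => M k - N k) = op M - op N := by
  ext1 φ
  refine xx_ext fun k i => ?_
  rw [co_op (hM.sub hN), sub_apply, co_sub, co_op hM, co_op hN]
  simp only [Matrix.sub_apply, sub_mul, Finset.sum_sub_distrib]

theorem op_nonneg {M : Fam S} {c : ℝ} (h : ColBd M c) (hp : ∀ k i j, 0 ≤ M k i j) (φ : XX S)
    (hφ : 0 ≤ φ) : 0 ≤ op M φ := by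
  rw [nonneg_iff] at hφ ⊢
  intro k i
  rw [co_op h]
  exact Finset.sum_nonneg fun j _ => mul_nonneg (hp k i j) (hφ k j)

theorem colBd_one [∀ k, DecidableEq (S k)] : ColBd (fun k => (1 : Matrix (S k) (S k) ℝ)) 1 := by
  intro k j
  simp [Matrix.one_apply, apply_ite abs]

theorem op_one [∀ k, DecidableEq (S k)] : op (fun k => (1 : Matrix (S k) (S k) ℝ)) = 1 := by
  ext1 φ
  refine xx_ext fun k i => ?_
  rw [co_op colBd_one]
  simp [Matrix.one_apply]

/-- strong continuity -/
theorem continuousOn_op {M : ℝ → Fam S} {c : ℝ} {I : Set ℝ} (hb : ∀ t ∈ I, ColBd (M t) c)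
    (hc : ∀ k i j, Continuous fun t => M t k i j) (φ : XX S) :
    ContinuousOn (fun t => op (M t) φ) I := by
  intro t₀ ht₀
  rw [ContinuousWithinAt, tendsto_iff_norm_sub_tendsto_zero]
  have h1 : Tendsto (fun t => ∑' k, bn (op (M t) φ - op (M t₀) φ) k) (𝓝[I] t₀)
      (𝓝 (∑' _k : ℕ, (0 : ℝ))) := by
    refine tendsto_tsum_of_dominated_convergence (bound := fun k => (c + c) * bn φ k)
      ((summable_bn φ).mul_left _) (fun k => ?_) ?_
    · have h2 : Tendsto (fun t => ∑ i, |∑ j, M t k i j * co φ k j - ∑ j, M t₀ k i j * co φ k j|)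
          (𝓝[I] t₀) (𝓝 (∑ i, |∑ j, M t₀ k i j * co φ k j - ∑ j, M t₀ k i j * co φ k j|)) := by
        refine Tendsto.mono_left ?_ nhdsWithin_le_nhds
        apply Continuous.tendsto
        have := hc k
        fun_prop
      simp only [sub_self, abs_zero, Finset.sum_const_zero] at h2
      refine h2.congr' ?_
      filter_upwards [self_mem_nhdsWithin] with t ht
      simp only [bn, co_sub, co_op (hb t ht), co_op (hb t₀ ht₀)]
    · filter_upwards [self_mem_nhdsWithin] with t ht k
      rw [Real.norm_eq_abs, abs_of_nonneg (bn_nonneg _ _), ← sub_apply,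
        ← op_sub (hb t ht) (hb t₀ ht₀)]
      exact bn_op_le ((hb t ht).sub (hb t₀ ht₀)) φ k (((hb t ht).sub (hb t₀ ht₀)) k)
  simp only [tsum_zero] at h1
  simpa only [norm_eq_tsum_bn] using h1

end Pool.Agent.Lib.MP_c2298c_an
end

-- part Pool.Agent.Lib.MP_c2298c_an.Compact
section

/-! Compactness criteria for block diagonal operators. -/

namespace Pool.Agent.Lib.MP_c2298c_an

open MeasureTheory Filter Topology Set

variable {S : ℕ → Type} [∀ k, Fintype (S k)]

/-- vectors supported in the first `K` blocks -/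
def VK (S : ℕ → Type) (K : ℕ) : Submodule ℝ (XX S) where
  carrier := {φ | ∀ k, K ≤ k → ∀ i, co φ k i = 0}
  add_mem' := fun {a b} ha hb k hk i => by rw [co_add, ha k hk i, hb k hk i, add_zero]
  zero_mem' := fun k _ i => co_zero k i
  smul_mem' := fun c a ha k hk i => by rw [co_smul, ha k hk i, mul_zero]

theorem finiteDimensional_VK (K : ℕ) : FiniteDimensional ℝ (VK S K) := by
  let f : VK S K →ₗ[ℝ] (∀ k : Fin K, S k → ℝ) :=
    { toFun := fun φ k i => co (φ : XX S) k i
      map_add' := fun a b => by ext k i; exact co_add _ _ _ _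
      map_smul' := fun c a => by ext k i; exact co_smul _ _ _ _ }
  refine FiniteDimensional.of_injective f ?_
  intro a b h
  apply Subtype.ext
  refine xx_ext fun k i => ?_
  by_cases hk : k < K
  · exact congrFun (congrFun h ⟨k, hk⟩) i
  · rw [a.2 k (not_lt.1 hk) i, b.2 k (not_lt.1 hk) i]

theorem isCompactOperator_of_range (A : XX S →L[ℝ] XX S) (K : ℕ) (h : ∀ φ, A φ ∈ VK S K) :
    IsCompactOperator A := by
  have := finiteDimensional_VK (S := S) K
  have : ProperSpace (VK S K) := FiniteDimensional.proper ℝ _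
  have h1 : IsCompactOperator (A.codRestrict (VK S K) h) :=
    isCompactOperator_of_locallyCompactSpace_dom _
  exact h1.clm_comp (VK S K).subtypeL

theorem isCompactOperator_op {M : Fam S} {c : ℝ} (h : ColBd M c) (hc : 0 ≤ c)
    (h0 : ∀ ε : ℝ, 0 < ε → ∃ K, ∀ k, K ≤ k → ∀ j, ∑ i, |M k i j| ≤ ε) :
    IsCompactOperator (op M) := by
  let tr : ℕ → Fam S := fun K k => if k < K then M k else 0
  have htr : ∀ K, ColBd (tr K) c := by
    intro K k j
    by_cases hk : k < K
    · simpa [tr, hk] using h k j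
    · simpa [tr, hk] using hc
  refine isCompactOperator_of_tendsto (l := atTop) (F := fun K => op (tr K)) ?_ ?_
  · rw [Metric.tendsto_atTop]
    intro ε hε
    obtain ⟨K, hK⟩ := h0 (ε / 2) (half_pos hε)
    refine ⟨K, fun n hn => ?_⟩
    rw [dist_eq_norm, ← op_sub (htr n) h]
    refine lt_of_le_of_lt (norm_op_le (c := ε / 2) ?_ (half_pos hε).le) (half_lt_self hε)
    intro k j
    by_cases hk : k < n
    · simpa [tr, hk] using (half_pos hε).le
    · simpa [tr, hk] using hK k (hn.trans (not_lt.1 hk)) j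
  · refine Eventually.of_forall fun K => isCompactOperator_of_range _ K fun φ k hk i => ?_
    rw [co_op (htr K)]
    simp [tr, not_lt.2 hk]

open Classical in
/-- unit vectors -/
noncomputable def unitV (k : ℕ) (j : S k) : XX S :=
  mkX (fun k' j' => if (⟨k', j'⟩ : Σ k, S k) = ⟨k, j⟩ then 1 else 0) (by
    refine summable_of_ne_finset_zero (s := {k}) fun k' hk' => ?_
    have hne : k' ≠ k := by simpa using hk'
    refine Finset.sum_eq_zero fun i _ => ?_
    rw [if_neg, abs_zero]
    intro h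
    exact hne (congrArg Sigma.fst h))

theorem co_unitV_self [∀ k, DecidableEq (S k)] (k : ℕ) (j j' : S k) :
    co (unitV k j) k j' = if j' = j then 1 else 0 := by
  rw [unitV, co_mkX]
  simp

theorem co_unitV_ne {k k' : ℕ} (h : k' ≠ k) (j : S k) (j' : S k') :
    co (unitV k j) k' j' = 0 := by
  rw [unitV, co_mkX, if_neg]
  intro h'
  exact h (congrArg Sigma.fst h')

theorem norm_unitV (k : ℕ) (j : S k) : ‖unitV k j‖ = 1 := by
  classical
  rw [norm_eq_tsum_bn, tsum_eq_single k]
  · simp [bn, co_unitV_self, apply_ite abs]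
  · intro k' hk'
    simp [bn, co_unitV_ne hk']

theorem co_op_unitV {M : Fam S} {c : ℝ} (h : ColBd M c) (k : ℕ) (i j : S k) :
    co (op M (unitV k j)) k i = M k i j := by
  classical
  rw [co_op h]
  simp [co_unitV_self]

theorem abs_entry_le {M : Fam S} {c : ℝ} (h : ColBd M c) (k : ℕ) (i j : S k) :
    |M k i j| ≤ ‖op M‖ := by
  rw [← co_op_unitV h]
  refine (abs_co_le _ _ _).trans ?_
  simpa [norm_unitV] using (op M).le_opNorm (unitV k j)

theorem not_isCompactOperator_op {M : Fam S} {c : ℝ} (h : ColBd M c) {d : ℝ} (hd : 0 < d)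
    (hM : ∀ k, ∃ i j, d ≤ M k i j) : ¬ IsCompactOperator (op M) := by
  intro hc
  choose i j hij using hM
  obtain ⟨K, hK, hsub⟩ := IsCompactOperator.image_closedBall_subset_compact
    (f := (op M : XX S →ₗ[ℝ] XX S)) hc 1
  have hmem : ∀ k, op M (unitV k (j k)) ∈ K := fun k =>
    hsub ⟨unitV k (j k), by simp [norm_unitV], rfl⟩
  obtain ⟨y, -, φ, hφ, hlim⟩ := hK.tendsto_subseq hmem
  have h1 : Tendsto (fun n => ‖op M (unitV (φ n) (j (φ n))) - y‖) atTop (𝓝 0) :=
    tendsto_iff_norm_sub_tendsto_zero.1 hlim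
  have h2 : Tendsto (fun n => bn y (φ n)) atTop (𝓝 0) :=
    (summable_bn y).tendsto_atTop_zero.comp hφ.tendsto_atTop
  have h3 := h1.add h2
  rw [add_zero] at h3
  have h4 : ∀ n, d ≤ ‖op M (unitV (φ n) (j (φ n))) - y‖ + bn y (φ n) := by
    intro n
    have a1 := abs_co_le (op M (unitV (φ n) (j (φ n))) - y) (φ n) (i (φ n))
    have a2 := abs_co_le_bn y (φ n) (i (φ n))
    rw [co_sub, co_op_unitV h] at a1
    have a3 := hij (φ n)
    have a4 := le_abs_self (M (φ n) (i (φ n)) (j (φ n)) - co y (φ n) (i (φ n)))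
    have a5 := le_abs_self (co y (φ n) (i (φ n)))
    linarith
  exact absurd (ge_of_tendsto' h3 h4) (not_le.2 hd)

theorem isWeaklyCompact_of_isCompact {Ω : Type} [MeasurableSpace Ω] {ν : Measure Ω}
    {A : Lp ℝ 1 ν →L[ℝ] Lp ℝ 1 ν} (h : IsCompactOperator A) : IsWeaklyCompactOperator A := by
  intro s hs
  obtain ⟨K, hK, hsub⟩ := IsCompactOperator.image_subset_compact_of_bounded
    (f := (A : Lp ℝ 1 ν →ₗ[ℝ] Lp ℝ 1 ν)) h hs
  have h1 : IsCompact (toWeakSpace ℝ (Lp ℝ 1 ν) '' K) :=
    hK.image (toWeakSpaceCLM ℝ (Lp ℝ 1 ν)).continuous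
  exact h1.closure_of_subset (image_mono hsub)

theorem not_continuousWithinAt_op {M : ℝ → Fam S} {c : ℝ} (h : ∀ t, 0 ≤ t → ColBd (M t) c)
    {d : ℝ} (hd : 0 < d)
    (hM : ∀ t, 0 ≤ t → t < 1 → ∃ k i j, d ≤ M 1 k i j - M t k i j) :
    ¬ ContinuousWithinAt (fun t => op (M t)) (Ici 0) 1 := by
  intro hc
  rw [Metric.continuousWithinAt_iff] at hc
  obtain ⟨δ, hδ, hc⟩ := hc d hd
  set t : ℝ := max 0 (1 - δ / 2) with ht
  have ht0 : 0 ≤ t := le_max_left _ _
  have ht1 : t < 1 := max_lt one_pos (by linarith)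
  have ht2 : 1 - δ / 2 ≤ t := le_max_right _ _
  have h1 := hc (x := t) ht0 (by rw [Real.dist_eq, abs_lt]; constructor <;> linarith)
  obtain ⟨k, i, j, hk⟩ := hM t ht0 ht1
  rw [dist_comm, dist_eq_norm, ← op_sub (h 1 zero_le_one) (h t ht0)] at h1
  have h2 := abs_entry_le ((h 1 zero_le_one).sub (h t ht0)) k i j
  have h3 := le_abs_self (M 1 k i j - M t k i j)
  simp only [Matrix.sub_apply] at h2
  linarith

end Pool.Agent.Lib.MP_c2298c_an
end

-- part Pool.Agent.Lib.MP_c2298c_an.Block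
section

/-! Direct sums of finite sub-Markov blocks: semigroup, generator, resolvent. -/

namespace Pool.Agent.Lib.MP_c2298c_an

open MeasureTheory Filter Topology Set

section Mat

variable {n : Type} [Fintype n] [DecidableEq n]

omit [DecidableEq n] in
theorem mat_ode_unique (A : Matrix n n ℝ) (F G : ℝ → Matrix n n ℝ)
    (hF : ∀ i j t, HasDerivAt (fun t => F t i j) ((A * F t) i j) t)
    (hG : ∀ i j t, HasDerivAt (fun t => G t i j) ((A * G t) i j) t) (h0 : F 0 = G 0) (t : ℝ) :
    F t = G t := by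
  classical
  ext i j
  let L : (n → ℝ) →L[ℝ] (n → ℝ) := LinearMap.toContinuousLinearMap (Matrix.mulVecLin A)
  have key : (fun t i => F t i j) = (fun t i => G t i j) := by
    refine ODE_solution_unique_univ (v := fun _ x => L x) (s := fun _ => univ) (K := ‖L‖₊)
      (t₀ := 0) (fun _ => L.lipschitz.lipschitzOnWith) (fun t => ⟨?_, trivial⟩)
      (fun t => ⟨?_, trivial⟩) ?_
    · rw [hasDerivAt_pi]
      intro i
      exact hF i j t
    · rw [hasDerivAt_pi]
      intro i
      exact hG i j t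
    · simp only [h0]
  exact congrFun (congrFun key t) i

omit [DecidableEq n] in
theorem hasDerivAt_mul_left (C : Matrix n n ℝ) {F : ℝ → Matrix n n ℝ} {D : Matrix n n ℝ} {t : ℝ}
    (hF : ∀ i j, HasDerivAt (fun t => F t i j) (D i j) t) (i j : n) :
    HasDerivAt (fun t => (C * F t) i j) ((C * D) i j) t := by
  simp only [Matrix.mul_apply]
  exact HasDerivAt.fun_sum fun l _ => (hF l j).const_mul _

omit [DecidableEq n] in
theorem hasDerivAt_mul_right (C : Matrix n n ℝ) {F : ℝ → Matrix n n ℝ} {D : Matrix n n ℝ} {t : ℝ}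
    (hF : ∀ i j, HasDerivAt (fun t => F t i j) (D i j) t) (i j : n) :
    HasDerivAt (fun t => (F t * C) i j) ((D * C) i j) t := by
  simp only [Matrix.mul_apply]
  exact HasDerivAt.fun_sum fun l _ => (hF i l).mul_const _

omit [DecidableEq n] in
/-- minimum principle -/
theorem min_principle (A : Matrix n n ℝ) (hoff : ∀ i j, i ≠ j → 0 ≤ A i j)
    (hcol : ∀ j, ∑ i, A i j ≤ 0) {l : ℝ} (hl : 0 < l) (x : n → ℝ)
    (hx : ∀ i, 0 ≤ l * x i - ∑ j, A i j * x j) : ∀ i, 0 ≤ x i := by
  by_contra hneg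
  push Not at hneg
  obtain ⟨i₀, hi₀⟩ := hneg
  set N : Finset n := Finset.univ.filter fun i => x i < 0 with hN
  have h1 : 0 ≤ ∑ i ∈ N, (l * x i - ∑ j, A i j * x j) := Finset.sum_nonneg fun i _ => hx i
  have h2 : ∑ i ∈ N, l * x i < 0 := by
    refine Finset.sum_neg (fun i hi => ?_) ⟨i₀, by simp [hN, hi₀]⟩
    exact mul_neg_of_pos_of_neg hl (by simpa [hN] using hi)
  have h3 : 0 ≤ ∑ i ∈ N, ∑ j, A i j * x j := by
    rw [Finset.sum_comm]
    refine Finset.sum_nonneg fun j _ => ?_
    rw [← Finset.sum_mul]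
    by_cases hj : x j < 0
    · refine mul_nonneg_of_nonpos_of_nonpos ?_ hj.le
      refine le_trans ?_ (hcol j)
      refine Finset.sum_le_sum_of_subset_of_nonneg (Finset.subset_univ _) fun i _ hi => hoff i j ?_
      rintro rfl
      exact hi (by simp [hN, hj])
    · refine mul_nonneg (Finset.sum_nonneg fun i hi => hoff i j ?_) (not_lt.1 hj)
      rintro rfl
      exact hj (by simpa [hN] using hi)
  rw [Finset.sum_sub_distrib] at h1
  linarith

theorem exists_resolvent (A : Matrix n n ℝ) (hoff : ∀ i j, i ≠ j → 0 ≤ A i j)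
    (hcol : ∀ j, ∑ i, A i j ≤ 0) {l : ℝ} (hl : 0 < l) :
    ∃ R : Matrix n n ℝ, (l • (1 : Matrix n n ℝ) - A) * R = 1 ∧ R * (l • (1 : Matrix n n ℝ) - A) = 1
      ∧ ∀ i j, 0 ≤ R i j := by
  set M : Matrix n n ℝ := l • (1 : Matrix n n ℝ) - A with hM
  have hmv : ∀ (x : n → ℝ) i, (M.mulVec x) i = l * x i - ∑ j, A i j * x j := by
    intro x i
    simp [hM, Matrix.mulVec, dotProduct]
    simp [Matrix.one_apply, sub_mul, Finset.sum_sub_distrib]
  have hinj : Function.Injective M.mulVec := by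
    rw [← Matrix.coe_mulVecLin, injective_iff_map_eq_zero]
    intro x hx
    have hx' : ∀ i, l * x i - ∑ j, A i j * x j = 0 := fun i => by
      rw [← hmv]; exact congrFun hx i
    have h1 := min_principle A hoff hcol hl x fun i => (hx' i).ge
    have h2 := min_principle A hoff hcol hl (fun i => - x i) fun i => by
      have := hx' i
      simp only [mul_neg, Finset.sum_neg_distrib]
      linarith
    ext i
    have := h1 i
    have := h2 i
    simp only [Pi.zero_apply]
    linarith
  have hu : IsUnit M := Matrix.mulVec_injective_iff_isUnit.1 hinj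
  obtain ⟨u, hu⟩ := hu
  refine ⟨(u⁻¹ : (Matrix n n ℝ)ˣ), by rw [← hu]; simp, by rw [← hu]; simp, fun i j => ?_⟩
  refine min_principle A hoff hcol hl (fun i => (u⁻¹ : (Matrix n n ℝ)ˣ).1 i j) (fun i => ?_) i
  refine le_of_le_of_eq ?_ (hmv (fun i => (u⁻¹ : (Matrix n n ℝ)ˣ).1 i j) i)
  have : M * (u⁻¹ : (Matrix n n ℝ)ˣ).1 = 1 := by rw [← hu]; simp
  have h2 : (M.mulVec fun i => (u⁻¹ : (Matrix n n ℝ)ˣ).1 i j) i = (1 : Matrix n n ℝ) i j := by
    rw [← this]; rfl
  rw [h2, Matrix.one_apply]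
  split_ifs <;> norm_num

end Mat

/-- The data of the blocks. -/
structure Blocks (S : ℕ → Type) [∀ k, Fintype (S k)] [∀ k, DecidableEq (S k)] where
  A : Fam S
  B : Fam S
  E : ℝ → Fam S
  E_zero : ∀ k, E 0 k = 1
  E_deriv : ∀ k i j t, HasDerivAt (fun t => E t k i j) ((A k * E t k) i j) t
  E_nonneg : ∀ t, 0 ≤ t → ∀ k i j, 0 ≤ E t k i j
  A_off : ∀ k i j, i ≠ j → 0 ≤ A k i j
  B_nonneg : ∀ k i j, 0 ≤ B k i j
  col : ∀ k j, 2 * ∑ i, B k i j ≤ - ∑ i, A k i j

namespace Blocks

variable {S : ℕ → Type} [∀ k, Fintype (S k)] [∀ k, DecidableEq (S k)] (D : Blocks S)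

theorem A_col (k : ℕ) (j : S k) : ∑ i, D.A k i j ≤ 0 := by
  have h1 := D.col k j
  have h2 : 0 ≤ ∑ i, D.B k i j := Finset.sum_nonneg fun i _ => D.B_nonneg k i j
  linarith

theorem E_cont (k : ℕ) (i j : S k) : Continuous fun t => D.E t k i j :=
  continuous_iff_continuousAt.2 fun t => (D.E_deriv k i j t).continuousAt

theorem E_comm (t : ℝ) (k : ℕ) : D.A k * D.E t k = D.E t k * D.A k := by
  refine mat_ode_unique (D.A k) (fun t => D.A k * D.E t k) (fun t => D.E t k * D.A k)
    (fun i j t => hasDerivAt_mul_left _ (fun i j => D.E_deriv k i j t) i j) (fun i j t => ?_)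
    (by simp [D.E_zero]) t
  rw [← Matrix.mul_assoc]
  exact hasDerivAt_mul_right _ (fun i j => D.E_deriv k i j t) i j

theorem E_add (s t : ℝ) (k : ℕ) : D.E (s + t) k = D.E s k * D.E t k := by
  refine mat_ode_unique (D.A k) (fun s => D.E (s + t) k) (fun s => D.E s k * D.E t k)
    (fun i j s => ?_) (fun i j s => ?_) (by simp [D.E_zero]) s
  · exact (D.E_deriv k i j (s + t)).comp_add_const s t
  · rw [← Matrix.mul_assoc]
    exact hasDerivAt_mul_right _ (fun i j => D.E_deriv k i j s) i j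

theorem colsum_deriv (k : ℕ) (j : S k) (t : ℝ) :
    HasDerivAt (fun t => ∑ i, D.E t k i j) (∑ l, (∑ i, D.A k i l) * D.E t k l j) t := by
  have h := HasDerivAt.fun_sum (u := Finset.univ) fun i _ => D.E_deriv k i j t
  have e : (∑ l, (∑ i, D.A k i l) * D.E t k l j) = ∑ i, (D.A k * D.E t k) i j := by
    simp only [Matrix.mul_apply, Finset.sum_mul]
    rw [Finset.sum_comm]
  rw [e]
  exact h

theorem colsum_integral (k : ℕ) (j : S k) (t : ℝ) :
    ∫ s in (0 : ℝ)..t, ∑ l, (∑ i, D.A k i l) * D.E s k l j = ∑ i, D.E t k i j - 1 := by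
  rw [intervalIntegral.integral_eq_sub_of_hasDerivAt (fun s _ => D.colsum_deriv k j s)]
  · simp [D.E_zero, Matrix.one_apply]
  · apply Continuous.intervalIntegrable
    have := D.E_cont k
    fun_prop

theorem E_colsum_le (t : ℝ) (ht : 0 ≤ t) (k : ℕ) (j : S k) : ∑ i, D.E t k i j ≤ 1 := by
  have h := D.colsum_integral k j t
  have h2 : ∫ s in (0 : ℝ)..t, ∑ l, (∑ i, D.A k i l) * D.E s k l j ≤ 0 := by
    have := intervalIntegral.integral_nonneg (μ := volume) ht
      (f := fun s => - ∑ l, (∑ i, D.A k i l) * D.E s k l j) (fun s hs => by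
        rw [neg_nonneg]
        exact Finset.sum_nonpos fun l _ =>
          mul_nonpos_of_nonpos_of_nonneg (D.A_col k l) (D.E_nonneg s hs.1 k l j))
    rw [intervalIntegral.integral_neg] at this
    linarith
  linarith

theorem E_colBd (t : ℝ) (ht : 0 ≤ t) : ColBd (D.E t) 1 := by
  intro k j
  rw [Finset.sum_congr rfl fun i _ => abs_of_nonneg (D.E_nonneg t ht k i j)]
  exact D.E_colsum_le t ht k j

/-- the semigroup -/
noncomputable def U (t : ℝ) : XX S →L[ℝ] XX S := op (D.E t)

theorem isSemigroup : IsSubstochasticSemigroup D.U where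
  map_zero := by
    have : D.E 0 = fun k => (1 : Matrix (S k) (S k) ℝ) := funext D.E_zero
    rw [U, this, op_one]
  map_add := fun s t hs ht => by
    have : D.E (s + t) = fun k => D.E s k * D.E t k := funext (D.E_add s t)
    rw [U, this, op_mul (D.E_colBd s hs) (D.E_colBd t ht) zero_le_one]
    rfl
  strongly_continuous := fun φ => continuousOn_op (fun t ht => D.E_colBd t ht) D.E_cont φ
  positive := fun t ht φ hφ => op_nonneg (D.E_colBd t ht) (D.E_nonneg t ht) φ hφ
  contraction := fun t ht => norm_op_le (D.E_colBd t ht) zero_le_one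

/-- the domain of the generator -/
def dom : Submodule ℝ (XX S) where
  carrier := {φ | ∃ ψ : XX S, ∀ k i, co ψ k i = ∑ j, D.A k i j * co φ k j}
  add_mem' := by
    rintro a b ⟨ψ, hψ⟩ ⟨χ, hχ⟩
    exact ⟨ψ + χ, fun k i => by simp only [co_add, hψ, hχ, mul_add, Finset.sum_add_distrib]⟩
  zero_mem' := ⟨0, fun k i => by simp [co_zero]⟩
  smul_mem' := by
    rintro c a ⟨ψ, hψ⟩
    refine ⟨c • ψ, fun k i => ?_⟩
    simp only [co_smul, hψ, Finset.mul_sum]
    exact Finset.sum_congr rfl fun j _ => by ring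

/-- the generator -/
noncomputable def T : XX S →ₗ.[ℝ] XX S where
  domain := D.dom
  toFun :=
    { toFun := fun φ => Classical.choose φ.2
      map_add' := fun a b => xx_ext fun k i => by
        rw [co_add, Classical.choose_spec (a + b).2, Classical.choose_spec a.2,
          Classical.choose_spec b.2]
        simp only [Submodule.coe_add, co_add, mul_add, Finset.sum_add_distrib]
      map_smul' := fun c a => xx_ext fun k i => by
        rw [co_smul, Classical.choose_spec (c • a).2, Classical.choose_spec a.2]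
        simp only [Submodule.coe_smul, co_smul, RingHom.id_apply, Finset.mul_sum]
        exact Finset.sum_congr rfl fun j _ => by ring }

theorem co_T (φ : D.T.domain) (k : ℕ) (i : S k) :
    co (D.T φ) k i = ∑ j, D.A k i j * co (φ : XX S) k j :=
  Classical.choose_spec φ.2 k i

theorem mem_graph_iff (φ ψ : XX S) : (∃ h : φ ∈ D.T.domain, D.T ⟨φ, h⟩ = ψ) ↔
    ∀ k i, co ψ k i = ∑ j, D.A k i j * co φ k j := by
  constructor
  · rintro ⟨h, rfl⟩ k i
    exact D.co_T ⟨φ, h⟩ k i
  · intro h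
    exact ⟨⟨ψ, h⟩, xx_ext fun k i => by rw [D.co_T, h]⟩

theorem co_U (t : ℝ) (ht : 0 ≤ t) (φ : XX S) (k : ℕ) (i : S k) :
    co (D.U t φ) k i = ∑ j, D.E t k i j * co φ k j := co_op (D.E_colBd t ht) φ k i

theorem isGenerator : IsGenerator D.U D.T := by
  intro φ ψ
  rw [mem_graph_iff]
  have hder : ∀ k i t, HasDerivAt (fun t => ∑ j, D.E t k i j * co φ k j)
      (∑ j, (D.A k * D.E t k) i j * co φ k j) t := fun k i t =>
    HasDerivAt.fun_sum fun j _ => (D.E_deriv k i j t).mul_const _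
  constructor
  · intro h
    have hc : ContinuousOn (fun t => D.U t ψ) (Ici 0) := D.isSemigroup.strongly_continuous ψ
    have hint : ∀ t, 0 ≤ t → IntervalIntegrable (fun t => D.U t ψ) volume 0 t := fun t ht =>
      ContinuousOn.intervalIntegrable (hc.mono (by rw [uIcc_of_le ht]; exact Icc_subset_Ici_self))
    have hid : ∀ t, 0 ≤ t → D.U t φ - φ = ∫ s in (0 : ℝ)..t, D.U s ψ := by
      intro t ht
      refine xx_ext fun k i => ?_
      rw [← ev_apply k i (∫ s in (0 : ℝ)..t, D.U s ψ),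
        ← (ev k i).intervalIntegral_comp_comm (hint t ht), co_sub, D.co_U t ht]
      have h1 : ∫ s in (0 : ℝ)..t, ev k i (D.U s ψ)
          = ∫ s in (0 : ℝ)..t, ∑ j, (D.A k * D.E s k) i j * co φ k j := by
        refine intervalIntegral.integral_congr fun s hs => ?_
        rw [uIcc_of_le ht] at hs
        simp only [D.E_comm]
        simp only [ev_apply, D.co_U s hs.1, h, Matrix.mul_apply, Finset.sum_mul,
          Finset.mul_sum]
        rw [Finset.sum_comm]
        exact Finset.sum_congr rfl fun _ _ => Finset.sum_congr rfl fun _ _ => by ring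
      rw [h1, intervalIntegral.integral_eq_sub_of_hasDerivAt (fun s _ => hder k i s)]
      · simp [D.E_zero, Matrix.one_apply]
      · apply Continuous.intervalIntegrable
        have := D.E_cont k
        simp only [Matrix.mul_apply]
        fun_prop
    have hd : HasDerivWithinAt (fun t => ∫ s in (0 : ℝ)..t, D.U s ψ) (D.U 0 ψ) (Ici 0) 0 := by
      refine intervalIntegral.integral_hasDerivWithinAt_right (t := Ioi 0) (hint 0 le_rfl) ?_ ?_
      · exact ⟨Ioi 0, self_mem_nhdsWithin,
          (hc.mono Ioi_subset_Ici_self).aestronglyMeasurable measurableSet_Ioi⟩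
      · exact (hc 0 (self_mem_Ici)).mono Ioi_subset_Ici_self
    rw [D.isSemigroup.map_zero, hasDerivWithinAt_iff_tendsto_slope, Ici_sdiff_left] at hd
    refine hd.congr' ?_
    filter_upwards [self_mem_nhdsWithin] with t ht
    rw [slope_def_module, hid t (le_of_lt ht)]
    simp
  · intro h k i
    have h1 : Tendsto (fun t : ℝ => ev k i (t⁻¹ • (D.U t φ - φ))) (𝓝[>] 0) (𝓝 (ev k i ψ)) :=
      ((ev k i).continuous.tendsto ψ).comp h
    have h2 := (hder k i 0).tendsto_slope_zero_right
    simp only [zero_add, D.E_zero, Matrix.mul_one] at h2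
    refine tendsto_nhds_unique h1 (h2.congr' ?_)
    filter_upwards [self_mem_nhdsWithin] with t ht
    simp only [ev_apply, co_smul, co_sub, D.co_U t (le_of_lt ht), smul_eq_mul]
    simp [Matrix.one_apply]

end Blocks

end Pool.Agent.Lib.MP_c2298c_an
end

-- part Pool.Agent.Lib.MP_c2298c_an.DP
section

/-! Direct sums of finite sub-Markov blocks: the perturbation and the Dyson-Phillips terms. -/

namespace Pool.Agent.Lib.MP_c2298c_an

open MeasureTheory Filter Topology Set
open scoped ENNReal NNReal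

namespace Blocks

variable {S : ℕ → Type} [∀ k, Fintype (S k)] [∀ k, DecidableEq (S k)] (D : Blocks S)

theorem exists_res {l : ℝ} (hl : 0 < l) : ∃ R : Fam S,
    (∀ k, (l • (1 : Matrix (S k) (S k) ℝ) - D.A k) * R k = 1) ∧
    (∀ k, R k * (l • (1 : Matrix (S k) (S k) ℝ) - D.A k) = 1) ∧
    ColBd R l⁻¹ ∧ ColBd (fun k => D.B k * R k) (1 / 2) := by
  choose R h1 h2 h3 using fun k => exists_resolvent (D.A k) (D.A_off k) (D.A_col k) hl
  have key : ∀ k j, l * ∑ i, R k i j - ∑ m, (∑ i, D.A k i m) * R k m j = 1 := by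
    intro k j
    have h : ∑ i, ((l • (1 : Matrix (S k) (S k) ℝ) - D.A k) * R k) i j = 1 := by
      rw [h1 k]; simp [Matrix.one_apply]
    rw [← h]
    simp only [Matrix.sub_mul, Matrix.smul_mul, Matrix.one_mul, Matrix.sub_apply,
      Matrix.smul_apply, smul_eq_mul, Finset.sum_sub_distrib]
    simp only [Matrix.mul_apply, Finset.sum_mul, Finset.mul_sum]
    rw [Finset.sum_comm]
  have hneg : ∀ k j, ∑ m, (∑ i, D.A k i m) * R k m j ≤ 0 := fun k j =>
    Finset.sum_nonpos fun m _ => mul_nonpos_of_nonpos_of_nonneg (D.A_col k m) (h3 k m j)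
  have hpos : ∀ k j, 0 ≤ ∑ i, R k i j := fun k j => Finset.sum_nonneg fun i _ => h3 k i j
  refine ⟨R, h1, h2, fun k j => ?_, fun k j => ?_⟩
  · rw [Finset.sum_congr rfl fun i _ => abs_of_nonneg (h3 k i j)]
    have := key k j
    have := hneg k j
    rw [inv_eq_one_div, le_div_iff₀ hl]
    linarith
  · have hnn : ∀ i, 0 ≤ (D.B k * R k) i j := fun i =>
      Finset.sum_nonneg fun m _ => mul_nonneg (D.B_nonneg k i m) (h3 k m j)
    rw [Finset.sum_congr rfl fun i _ => abs_of_nonneg (hnn i)]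
    have e : ∑ i, (D.B k * R k) i j = ∑ m, (∑ i, D.B k i m) * R k m j := by
      simp only [Matrix.mul_apply, Finset.sum_mul]
      rw [Finset.sum_comm]
    have h4 : ∑ m, (2 * ∑ i, D.B k i m) * R k m j ≤ ∑ m, (- ∑ i, D.A k i m) * R k m j :=
      Finset.sum_le_sum fun m _ => mul_le_mul_of_nonneg_right (D.col k m) (h3 k m j)
    simp only [mul_assoc, neg_mul, Finset.sum_neg_distrib, ← Finset.mul_sum] at h4
    have := key k j
    have := mul_nonneg hl.le (hpos k j)
    rw [e]
    linarith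

/-- the resolvent at 1 -/
noncomputable def R1 : Fam S := (D.exists_res one_pos).choose

theorem R1_mul (k : ℕ) : D.R1 k * ((1 : ℝ) • (1 : Matrix (S k) (S k) ℝ) - D.A k) = 1 :=
  (D.exists_res one_pos).choose_spec.2.1 k

theorem BR1_colBd : ColBd (fun k => D.B k * D.R1 k) (1 / 2) :=
  (D.exists_res one_pos).choose_spec.2.2.2

/-- the perturbation -/
noncomputable def Bop : D.T.domain →ₗ[ℝ] XX S :=
  (op (fun k => D.B k * D.R1 k) : XX S →ₗ[ℝ] XX S) ∘ₗ (D.T.domain.subtype - D.T.toFun)

theorem Bop_apply (φ : D.T.domain) :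
    D.Bop φ = op (fun k => D.B k * D.R1 k) ((φ : XX S) - D.T φ) := rfl

theorem sum_res {k : ℕ} (M R A : Matrix (S k) (S k) ℝ) (l : ℝ)
    (h : R * (l • (1 : Matrix (S k) (S k) ℝ) - A) = 1) (v : S k → ℝ) (i : S k) :
    ∑ j, (M * R) i j * (l * v j - ∑ m, A j m * v m) = ∑ j, M i j * v j := by
  have e1 : (fun j => l * v j - ∑ m, A j m * v m)
      = (l • (1 : Matrix (S k) (S k) ℝ) - A).mulVec v := by
    ext j
    simp [Matrix.mulVec, dotProduct]
    simp [Matrix.one_apply, sub_mul, Finset.sum_sub_distrib]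
  have e2 : ((M * R).mulVec ((l • (1 : Matrix (S k) (S k) ℝ) - A).mulVec v)) i
      = (M.mulVec v) i := by
    rw [Matrix.mulVec_mulVec, Matrix.mul_assoc, h, Matrix.mul_one]
  rw [← e1] at e2
  exact e2

theorem co_Bop (φ : D.T.domain) (k : ℕ) (i : S k) :
    co (D.Bop φ) k i = ∑ j, D.B k i j * co (φ : XX S) k j := by
  rw [Bop_apply, co_op D.BR1_colBd]
  simp only [co_sub, co_T]
  have := sum_res (D.B k) (D.R1 k) (D.A k) 1 (D.R1_mul k) (co (φ : XX S) k) i
  simpa only [one_mul] using this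

omit [∀ k, Fintype (S k)] [∀ k, DecidableEq (S k)] in
theorem specRadius_lt_one {C : XX S →L[ℝ] XX S} (h : ‖C‖ ≤ 1 / 2) : specRadius C < 1 := by
  refine lt_of_le_of_lt (b := (2 : ℝ≥0∞)⁻¹) ?_ (by norm_num)
  refine limsup_le_of_le (by isBoundedDefault) ?_
  filter_upwards [eventually_gt_atTop 0] with m hm
  have h1 : ‖C ^ m‖₊ ≤ ‖C‖₊ ^ m := nnnorm_pow_le' C hm
  have h2 : (‖C‖₊ : ℝ≥0∞) ≤ 2⁻¹ := by
    have : ‖C‖₊ ≤ (2⁻¹ : ℝ≥0) := by
      rw [← NNReal.coe_le_coe]; simpa using h
    calc (‖C‖₊ : ℝ≥0∞) ≤ ((2⁻¹ : ℝ≥0) : ℝ≥0∞) := ENNReal.coe_le_coe.2 this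
      _ = 2⁻¹ := by simp
  have h3 : (‖C ^ m‖₊ : ℝ≥0∞) ≤ (2⁻¹ : ℝ≥0∞) ^ m := by
    calc (‖C ^ m‖₊ : ℝ≥0∞) ≤ ((‖C‖₊ ^ m : ℝ≥0) : ℝ≥0∞) := ENNReal.coe_le_coe.2 h1
      _ = (‖C‖₊ : ℝ≥0∞) ^ m := by simp
      _ ≤ (2⁻¹ : ℝ≥0∞) ^ m := pow_le_pow_left' h2 m
  calc (‖C ^ m‖₊ : ℝ≥0∞) ^ (1 / m : ℝ) ≤ ((2⁻¹ : ℝ≥0∞) ^ m) ^ (1 / m : ℝ) :=
        ENNReal.rpow_le_rpow h3 (by positivity)
    _ = 2⁻¹ := by
        rw [one_div, ENNReal.pow_rpow_inv_natCast hm.ne']

theorem isAdmissible : IsAdmissiblePerturbation D.T D.Bop where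
  relatively_bounded := ⟨1 / 2, 1 / 2, fun φ => by
    rw [Bop_apply]
    refine (norm_op_apply_le D.BR1_colBd _).trans ?_
    have := norm_sub_le (φ : XX S) (D.T φ)
    linarith⟩
  positive := fun φ hφ => by
    rw [nonneg_iff] at hφ ⊢
    intro k i
    rw [co_Bop]
    exact Finset.sum_nonneg fun j _ => mul_nonneg (D.B_nonneg k i j) (hφ k j)
  small := ⟨1, fun l hl => by
    have hl0 : 0 < l := lt_of_lt_of_le one_pos hl
    obtain ⟨R, h1, h2, h3, h4⟩ := D.exists_res hl0
    refine ⟨op R, op (fun k => D.B k * R k), fun φ => ?_, fun φ => ?_,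
      specRadius_lt_one (norm_op_le h4 (by norm_num))⟩
    · have hg : ∀ k i, co (l • op R φ - φ) k i = ∑ j, D.A k i j * co (op R φ) k j := by
        intro k i
        have e : ((l • (1 : Matrix (S k) (S k) ℝ) - D.A k).mulVec ((R k).mulVec (co φ k))) i
            = co φ k i := by
          rw [Matrix.mulVec_mulVec, h1 k, Matrix.one_mulVec]
        rw [co_sub, co_smul, ← e]
        simp only [co_op h3]
        rw [Matrix.sub_mulVec, Matrix.smul_mulVec, Matrix.one_mulVec]
        simp only [Matrix.mulVec, dotProduct, Pi.sub_apply, Pi.smul_apply, smul_eq_mul]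
        ring
      obtain ⟨h, hT⟩ := (D.mem_graph_iff _ _).2 hg
      refine ⟨h, by rw [hT]; simp, xx_ext fun k i => ?_⟩
      rw [co_Bop, co_op h4]
      simp only [co_op h3, Matrix.mul_apply, Finset.sum_mul, Finset.mul_sum]
      rw [Finset.sum_comm]
      exact Finset.sum_congr rfl fun _ _ => Finset.sum_congr rfl fun _ _ => by ring
    · refine xx_ext fun k i => ?_
      rw [co_op h3]
      simp only [co_sub, co_smul, co_T]
      have := sum_res 1 (R k) (D.A k) l (h2 k) (co (φ : XX S) k) i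
      simpa [Matrix.one_apply] using this⟩

/-- the blocks of the Dyson-Phillips terms -/
noncomputable def Wm : ℕ → ℝ → Fam S
  | 0 => D.E
  | (j + 1) => fun t k => Matrix.of fun i l =>
      ∫ s in (0 : ℝ)..t, (Wm j (t - s) k * D.B k * D.E s k) i l

theorem Wm_succ (j : ℕ) (t : ℝ) (k : ℕ) (i l : S k) : D.Wm (j + 1) t k i l =
    ∫ s in (0 : ℝ)..t, (D.Wm j (t - s) k * D.B k * D.E s k) i l := rfl

theorem Wm_cont (j : ℕ) : ∀ (k : ℕ) (i l : S k), Continuous fun t => D.Wm j t k i l := by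
  induction j with
  | zero => exact D.E_cont
  | succ j ih =>
    intro k i l
    simp only [Wm_succ]
    refine intervalIntegral.continuous_parametric_intervalIntegral_of_continuous
      (f := fun t s => (D.Wm j (t - s) k * D.B k * D.E s k) i l) ?_ continuous_id
    simp only [Matrix.mul_apply]
    refine continuous_finsetSum _ fun a _ => Continuous.mul
      (continuous_finsetSum _ fun b _ => Continuous.mul ?_ continuous_const) ?_
    · exact (ih k i b).comp (continuous_fst.sub continuous_snd)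
    · exact (D.E_cont k a l).comp continuous_snd

theorem integrand_cont (j : ℕ) (t : ℝ) (k : ℕ) (i l : S k) :
    Continuous fun s => (D.Wm j (t - s) k * D.B k * D.E s k) i l := by
  simp only [Matrix.mul_apply]
  refine continuous_finsetSum _ fun a _ => Continuous.mul
    (continuous_finsetSum _ fun b _ => Continuous.mul ?_ continuous_const) (D.E_cont k a l)
  exact (D.Wm_cont j k i b).comp (continuous_const.sub continuous_id)

theorem Wm_nonneg (j : ℕ) : ∀ t, 0 ≤ t → ∀ (k : ℕ) (i l : S k), 0 ≤ D.Wm j t k i l := by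
  induction j with
  | zero => exact D.E_nonneg
  | succ j ih =>
    intro t ht k i l
    rw [Wm_succ]
    refine intervalIntegral.integral_nonneg ht fun s hs => ?_
    simp only [Matrix.mul_apply]
    exact Finset.sum_nonneg fun a _ => mul_nonneg (Finset.sum_nonneg fun b _ =>
      mul_nonneg (ih _ (sub_nonneg.2 hs.2) k i b) (D.B_nonneg k b a)) (D.E_nonneg s hs.1 k a l)

theorem Wm_colsum (j : ℕ) : ∀ t, 0 ≤ t → ∀ (k : ℕ) (l : S k), ∑ i, D.Wm j t k i l ≤ 1 := by
  induction j with
  | zero => exact D.E_colsum_le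
  | succ j ih =>
    intro t ht k l
    simp only [Wm_succ]
    rw [← intervalIntegral.integral_finsetSum
      (fun i _ => (D.integrand_cont j t k i l).intervalIntegrable _ _)]
    have h1 : ∫ s in (0 : ℝ)..t, ∑ i, (D.Wm j (t - s) k * D.B k * D.E s k) i l
        ≤ ∫ s in (0 : ℝ)..t, - ∑ m, (∑ i, D.A k i m) * D.E s k m l := by
      refine intervalIntegral.integral_mono_on ht ?_ ?_ fun s hs => ?_
      · exact (continuous_finsetSum _ fun i _ => D.integrand_cont j t k i l).intervalIntegrable _ _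
      · apply Continuous.intervalIntegrable
        have := D.E_cont k
        fun_prop
      · have e : ∑ i, (D.Wm j (t - s) k * D.B k * D.E s k) i l
            = ∑ a, (∑ b, (∑ i, D.Wm j (t - s) k i b) * D.B k b a) * D.E s k a l := by
          simp only [Matrix.mul_apply, Finset.sum_mul]
          rw [Finset.sum_comm]
          refine Finset.sum_congr rfl fun a _ => ?_
          rw [Finset.sum_comm]
        rw [e, ← Finset.sum_neg_distrib]
        refine Finset.sum_le_sum fun a _ => ?_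
        rw [← neg_mul]
        refine mul_le_mul_of_nonneg_right ?_ (D.E_nonneg s hs.1 k a l)
        have h2 : ∑ b, (∑ i, D.Wm j (t - s) k i b) * D.B k b a ≤ ∑ b, D.B k b a :=
          Finset.sum_le_sum fun b _ => by
            have := mul_le_mul_of_nonneg_right (ih _ (sub_nonneg.2 hs.2) k b) (D.B_nonneg k b a)
            simpa using this
        have h3 := D.col k a
        have h4 : 0 ≤ ∑ b, D.B k b a := Finset.sum_nonneg fun b _ => D.B_nonneg k b a
        linarith
    rw [intervalIntegral.integral_neg, D.colsum_integral] at h1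
    have h5 : 0 ≤ ∑ i, D.E t k i l := Finset.sum_nonneg fun i _ => D.E_nonneg t ht k i l
    linarith

theorem Wm_colBd (j : ℕ) (t : ℝ) (ht : 0 ≤ t) : ColBd (D.Wm j t) 1 := by
  intro k l
  rw [Finset.sum_congr rfl fun i _ => abs_of_nonneg (D.Wm_nonneg j t ht k i l)]
  exact D.Wm_colsum j t ht k l

/-- the Dyson-Phillips terms -/
noncomputable def W (j : ℕ) (t : ℝ) : XX S →L[ℝ] XX S := op (D.Wm j t)

theorem isDysonPhillips : IsDysonPhillips D.U D.T D.Bop D.W where
  zero := fun _ _ => rfl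
  positive := fun j t ht φ hφ => op_nonneg (D.Wm_colBd j t ht) (D.Wm_nonneg j t ht) φ hφ
  succ := fun j t ht φ hφ => by
    set ψ : XX S := φ - D.T ⟨φ, hφ⟩ with hψ
    let M : ℝ → Fam S := fun s k => D.Wm j (t - s) k * ((D.B k * D.R1 k) * D.E s k)
    have hM : ∀ s ∈ Icc 0 t, ColBd (M s) (1 * (1 / 2 * 1)) := fun s hs =>
      (D.Wm_colBd j _ (sub_nonneg.2 hs.2)).mul
        (D.BR1_colBd.mul (D.E_colBd s hs.1) (by norm_num)) zero_le_one
    have hMc : ∀ k i l, Continuous fun s => M s k i l := by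
      intro k i l
      simp only [M, Matrix.mul_apply]
      refine continuous_finsetSum _ fun a _ => Continuous.mul ?_
        (continuous_finsetSum _ fun b _ => Continuous.mul continuous_const (D.E_cont k b l))
      exact (D.Wm_cont j k i a).comp (continuous_const.sub continuous_id)
    have hco : ∀ s ∈ Icc 0 t, ∀ k i, co (op (M s) ψ) k i =
        ∑ l, (D.Wm j (t - s) k * D.B k * D.E s k) i l * co φ k l := by
      intro s hs k i
      rw [co_op (hM s hs)]
      simp only [hψ, co_sub, co_T]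
      have e1 : D.R1 k * D.E s k * ((1 : ℝ) • (1 : Matrix (S k) (S k) ℝ) - D.A k) = D.E s k := by
        have : D.E s k * ((1 : ℝ) • (1 : Matrix (S k) (S k) ℝ) - D.A k)
            = ((1 : ℝ) • (1 : Matrix (S k) (S k) ℝ) - D.A k) * D.E s k := by
          simp [Matrix.mul_sub, Matrix.sub_mul, D.E_comm]
        rw [Matrix.mul_assoc, this, ← Matrix.mul_assoc, D.R1_mul, Matrix.one_mul]
      have e2 : (fun a => co φ k a - ∑ m, D.A k a m * co φ k m)
          = ((1 : ℝ) • (1 : Matrix (S k) (S k) ℝ) - D.A k).mulVec (co φ k) := by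
        ext a
        simp [Matrix.mulVec, dotProduct]
        simp [Matrix.one_apply, sub_mul, Finset.sum_sub_distrib]
      have e3 : ((M s k).mulVec
          (((1 : ℝ) • (1 : Matrix (S k) (S k) ℝ) - D.A k).mulVec (co φ k))) i
          = ((D.Wm j (t - s) k * D.B k * D.E s k).mulVec (co φ k)) i := by
        rw [Matrix.mulVec_mulVec]
        have e4 : M s k * ((1 : ℝ) • (1 : Matrix (S k) (S k) ℝ) - D.A k)
            = D.Wm j (t - s) k * D.B k * D.E s k := by
          simp only [M, Matrix.mul_assoc]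
          rw [← Matrix.mul_assoc (D.R1 k), e1]
        rw [e4]
      rw [← e2] at e3
      exact e3
    have hcont : ContinuousOn (fun s => op (M s) ψ) (Icc 0 t) := continuousOn_op hM hMc ψ
    have hint : IntervalIntegrable (fun s => op (M s) ψ) volume 0 t :=
      ContinuousOn.intervalIntegrable (by rw [uIcc_of_le ht]; exact hcont)
    refine ⟨fun s => op (M s) ψ, fun s hs => ?_, hint, ?_⟩
    · have hg : ∀ k i, co (D.U s (D.T ⟨φ, hφ⟩)) k i = ∑ a, D.A k i a * co (D.U s φ) k a := by
        intro k i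
        have e : ((D.E s k).mulVec ((D.A k).mulVec (co φ k))) i
            = ((D.A k).mulVec ((D.E s k).mulVec (co φ k))) i := by
          rw [Matrix.mulVec_mulVec, Matrix.mulVec_mulVec, D.E_comm]
        simp only [D.co_U s hs.1, co_T]
        exact e
      obtain ⟨h, -⟩ := (D.mem_graph_iff _ _).2 hg
      refine ⟨h, xx_ext fun k i => ?_⟩
      rw [hco s hs, W, co_op (D.Wm_colBd j _ (sub_nonneg.2 hs.2))]
      simp only [co_Bop, D.co_U s hs.1]
      have e : ((D.Wm j (t - s) k * D.B k * D.E s k).mulVec (co φ k)) i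
          = ((D.Wm j (t - s) k).mulVec ((D.B k).mulVec ((D.E s k).mulVec (co φ k)))) i := by
        rw [Matrix.mulVec_mulVec, Matrix.mulVec_mulVec]
      exact e
    · refine xx_ext fun k i => ?_
      rw [← ev_apply k i (∫ s in (0 : ℝ)..t, op (M s) ψ),
        ← (ev k i).intervalIntegral_comp_comm hint, W, co_op (D.Wm_colBd _ t ht)]
      have h1 : ∫ s in (0 : ℝ)..t, ev k i (op (M s) ψ)
          = ∫ s in (0 : ℝ)..t, ∑ l, (D.Wm j (t - s) k * D.B k * D.E s k) i l * co φ k l := by
        refine intervalIntegral.integral_congr fun s hs => ?_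
        rw [uIcc_of_le ht] at hs
        exact hco s hs k i
      rw [h1, intervalIntegral.integral_finsetSum
        (f := fun l s => (D.Wm j (t - s) k * D.B k * D.E s k) i l * co φ k l)
        (fun l _ => ((D.integrand_cont j t k i l).mul continuous_const).intervalIntegrable _ _)]
      simp only [Wm_succ, intervalIntegral.integral_mul_const]

end Blocks

end Pool.Agent.Lib.MP_c2298c_an
end
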